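import Mathlib

set_option autoImplicit false

/-!
# Bounded-depth Frege systems: definitions

Tait calculus with unbounded fan-in and strictly alternating formulas. A tree `t : Tm` is read as an
AND formula or as an OR formula: a literal is itself, a node is the conjunction (or the
disjunction) of its children, the children being read with the other connective. A line is a list
of trees, read as the disjunction of its elements, each of which is read as an AND formula. So a
line all of whose trees have height less than `d` is a formula of depth at most `d` (a clause has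
depth 1). A formula to be refuted is a list of lines, read as the conjunction of the lines; it has
depth at most `k` if its lines have depth at most `k - 1` (a CNF formula has depth 2).
-/

namespace Pool.Agent.H75.DH

/-- A literal: variable and sign (`true` for the variable, `false` for its negation). -/
abbrev Lit : Type := ℕ × Bool

/-- The trees, see above. -/
inductive Tm : Type
  /-- a literal -/
  | lit (l : Lit) : Tm
  /-- a gate of fan-in `n` -/
  | node (n : ℕ) (f : Fin n → Tm) : Tm

namespace Tm

/-- The truth value of a tree, read as an AND formula (`true`) or as an OR formula (`false`). -/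
def ev (a : ℕ → Bool) : Tm → Bool → Prop
  | .lit l, _ => a l.1 = l.2
  | .node _ f, true => ∀ i, ev a (f i) false
  | .node _ f, false => ∃ i, ev a (f i) true

/-- Negation: negate all literals (and read the result with the other connective). -/
def neg : Tm → Tm
  | lit l => lit (l.1, !l.2)
  | node n f => node n fun i => neg (f i)

/-- The height of a tree. -/
def ht : Tm → ℕ
  | lit _ => 0
  | node _ f => 1 + Finset.univ.sup fun i => ht (f i)

/-- The number of symbols (literals and gates) of a tree. -/
def size : Tm → ℕ
  | lit _ => 1
  | node _ f => 1 + ∑ i, size (f i)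

/-- The AND formulas whose disjunction is the OR formula `t`. -/
def parts : Tm → List Tm
  | lit l => [lit l]
  | node _ f => List.ofFn f

end Tm

/-- A line: the disjunction of its elements, which are AND formulas. -/
abbrev Line : Type := List Tm

/-- A formula to be refuted: the conjunction of its lines. -/
abbrev Fml : Type := List Line

/-- `F` has depth at most `k` (for `k ≥ 2`). For `k = 2` these are the CNF formulas. -/
def DepthLE (k : ℕ) (F : Fml) : Prop := ∀ L ∈ F, ∀ t ∈ L, t.ht + 2 ≤ k

/-- `F` is a CNF formula all of whose clauses have at most three literals. -/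
def ThreeCnf (F : Fml) : Prop := DepthLE 2 F ∧ ∀ L ∈ F, L.length ≤ 3

/-- `F` is unsatisfiable. -/
def Unsat (F : Fml) : Prop := ∀ a : ℕ → Bool, ∃ L ∈ F, ∀ t ∈ L, ¬ t.ev a true

/-- The line `X` is a weakening of a line of `π`. -/
def Has (π : List Line) (X : Line) : Prop := ∃ M ∈ π, M ⊆ X

/-- The line `L` follows by one rule from lines of `π`: an axiom `x ∨ ¬x`, a line of `F`, an
introduction of AND, or a cut; weakening is built into the rules. -/
inductive Step (F : Fml) (π : List Line) (L : Line) : Prop
  /-- axiom -/
  | ax (v : ℕ) (h1 : Tm.lit (v, true) ∈ L) (h2 : Tm.lit (v, false) ∈ L)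
  /-- line of `F` -/
  | hyp (C : Line) (hC : C ∈ F) (h : C ⊆ L)
  /-- from `A i ∨ L` for all `i` infer `L`, if the conjunction of all `A i` is in `L` -/
  | and (n : ℕ) (f : Fin n → Tm) (h : Tm.node n f ∈ L) (h' : ∀ i, Has π ((f i).parts ++ L))
  /-- from `t ∨ L` and `¬t ∨ L` infer `L` -/
  | cut (t : Tm) (h1 : Has π (t :: L)) (h2 : Has π (t.neg.parts ++ L))

/-- `π` (last line first) is a derivation from `F` with all lines of depth at most `d`. -/
def IsProof (F : Fml) (d : ℕ) : List Line → Prop
  | [] => True
  | L :: π => IsProof F d π ∧ Step F π L ∧ ∀ t ∈ L, t.ht < d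

/-- `π` is a depth `d` refutation of `F`: a derivation that contains the empty line. -/
def Refutes (F : Fml) (d : ℕ) (π : List Line) : Prop := IsProof F d π ∧ [] ∈ π

/-- The size of a list of lines: number of symbols (plus one for each line). -/
def psize (π : List Line) : ℕ := (π.map fun L => 1 + (L.map Tm.size).sum).sum

/-- Depth `e` Frege is exponentially stronger than depth `d` Frege on the formulas of the
class `P`: there are unsatisfiable `F n` in `P` of size polynomial in `n` with depth `e` refutations
of size polynomial in `n`, such that for some `ε > 0` and all large `n` every depth `d` refutation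
of `F n` has size at least `2 ^ (n ^ ε)`. -/
def Stronger (P : Fml → Prop) (d e : ℕ) : Prop :=
  ∃ (F : ℕ → Fml) (c : ℕ) (ε : ℝ), 0 < ε ∧
    (∀ n, P (F n) ∧ Unsat (F n) ∧ psize (F n) ≤ n ^ c + c) ∧
    (∀ n, ∃ π, Refutes (F n) e π ∧ psize π ≤ n ^ c + c) ∧
    ∃ n₀ : ℕ, ∀ n ≥ n₀, ∀ π, Refutes (F n) d π → (2 : ℝ) ^ ((n : ℝ) ^ ε) ≤ psize π

end Pool.Agent.H75.DH
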