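import Mathlib
import Pool.Agent.H75.DH.Defs

set_option autoImplicit false

/-!
Depth hierarchy on CNF formulas: basic lemmas.
-/

namespace Pool.Agent.H75.DH

/-- the opposite literal -/
def negl (l : Lit) : Lit := (l.1, !l.2)

@[simp] theorem negl_negl (l : Lit) : negl (negl l) = l := by simp [negl]

@[simp] theorem negl_fst (l : Lit) : (negl l).1 = l.1 := rfl

@[simp] theorem negl_snd (l : Lit) : (negl l).2 = !l.2 := rfl

/-- The size of a list of lists of literals. -/
def csize (F : List (List Lit)) : ℕ := (F.map fun C => 1 + C.length).sum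

/-- number of symbols of a line -/
def lsize (L : Line) : ℕ := (L.map Tm.size).sum

theorem lsize_nil : lsize [] = 0 := rfl

theorem lsize_cons (t : Tm) (L : Line) : lsize (t :: L) = t.size + lsize L := by
  simp [lsize]

theorem lsize_append (L M : Line) : lsize (L ++ M) = lsize L + lsize M := by
  simp [lsize]

theorem lsize_lits (xs : List Lit) : lsize (xs.map Tm.lit) = xs.length := by
  induction xs with
  | nil => rfl
  | cons x xs ih => rw [List.map_cons, lsize_cons, ih, List.length_cons, Tm.size]; omega

theorem size_le_lsize {t : Tm} {L : Line} (h : t ∈ L) : t.size ≤ lsize L :=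
  List.le_sum_of_mem (List.mem_map_of_mem h)

theorem psize_nil : psize [] = 0 := rfl

theorem psize_cons (L : Line) (π : List Line) : psize (L :: π) = 1 + lsize L + psize π := by
  simp [psize, lsize]

theorem psize_append (π ρ : List Line) : psize (π ++ ρ) = psize π + psize ρ := by
  simp [psize]

theorem lsize_lt_psize {L : Line} {π : List Line} (h : L ∈ π) : 1 + lsize L ≤ psize π :=
  List.le_sum_of_mem (List.mem_map_of_mem (f := fun L => 1 + (L.map Tm.size).sum) h)

theorem length_le_psize (π : List Line) : π.length ≤ psize π := by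
  induction π with
  | nil => simp [psize]
  | cons L π ih => rw [psize_cons, List.length_cons]; omega

namespace Tm

@[simp] theorem neg_lit (l : Lit) : (Tm.lit l).neg = Tm.lit (negl l) := rfl

theorem neg_node (n : ℕ) (f : Fin n → Tm) : (Tm.node n f).neg = Tm.node n fun i => (f i).neg := rfl

@[simp] theorem neg_neg (t : Tm) : t.neg.neg = t := by
  induction t with
  | lit l => simp
  | node n f ih => rw [neg_node, neg_node]; congr 1; funext i; exact ih i

@[simp] theorem ht_lit (l : Lit) : (Tm.lit l).ht = 0 := rfl

theorem ht_node (n : ℕ) (f : Fin n → Tm) :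
    (Tm.node n f).ht = 1 + Finset.univ.sup fun i => (f i).ht := rfl

@[simp] theorem size_lit (l : Lit) : (Tm.lit l).size = 1 := rfl

theorem size_node (n : ℕ) (f : Fin n → Tm) : (Tm.node n f).size = 1 + ∑ i, (f i).size := rfl

theorem one_le_size (t : Tm) : 1 ≤ t.size := by
  cases t with
  | lit l => simp
  | node n f => rw [size_node]; omega

theorem n_lt_size (n : ℕ) (f : Fin n → Tm) : n < (Tm.node n f).size := by
  rw [size_node]
  have : ∑ _i : Fin n, 1 ≤ ∑ i, (f i).size := Finset.sum_le_sum fun i _ => one_le_size (f i)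
  simp at this
  omega

@[simp] theorem parts_lit (l : Lit) : (Tm.lit l).parts = [Tm.lit l] := rfl

@[simp] theorem parts_node (n : ℕ) (f : Fin n → Tm) : (Tm.node n f).parts = List.ofFn f := rfl

theorem ht_child {n : ℕ} (f : Fin n → Tm) (i : Fin n) : (f i).ht < (Tm.node n f).ht := by
  rw [ht_node]
  have := Finset.le_sup (f := fun i => (f i).ht) (Finset.mem_univ i)
  omega

theorem ht_parts {t x : Tm} (h : x ∈ t.parts) : x.ht ≤ t.ht := by
  cases t with
  | lit l => simp at h; subst h; exact le_rfl
  | node n f =>
    rw [parts_node, List.mem_ofFn] at h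
    obtain ⟨i, rfl⟩ := h
    exact (ht_child f i).le

@[simp] theorem ht_neg (t : Tm) : t.neg.ht = t.ht := by
  induction t with
  | lit l => simp
  | node n f ih => rw [neg_node, ht_node, ht_node]; simp only [ih]

@[simp] theorem size_neg (t : Tm) : t.neg.size = t.size := by
  induction t with
  | lit l => simp
  | node n f ih => rw [neg_node, size_node, size_node]; simp only [ih]

/-- is it a literal -/
def isLit : Tm → Bool
  | lit _ => true
  | node _ _ => false

/-- the literal -/
def toLit : Tm → Option Lit
  | lit l => some l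
  | node _ _ => none

@[simp] theorem isLit_neg (t : Tm) : t.neg.isLit = t.isLit := by
  cases t <;> rfl

/-- the gate with a given list of children -/
def mk (L : List Tm) : Tm := Tm.node L.length L.get

@[simp] theorem parts_mk (L : List Tm) : (mk L).parts = L := by
  rw [mk, parts_node, List.ofFn_get]

theorem node_eq {n m : ℕ} {f : Fin n → Tm} {g : Fin m → Tm} (h : List.ofFn f = List.ofFn g) :
    Tm.node n f = Tm.node m g := by
  have h2 := List.ofFn_inj'.1 h
  cases h2
  rfl

theorem mk_ofFn {n : ℕ} (f : Fin n → Tm) : mk (List.ofFn f) = Tm.node n f := by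
  refine node_eq ?_
  rw [List.ofFn_get]

theorem neg_mk (L : List Tm) : (mk L).neg = mk (L.map neg) := by
  rw [mk, neg_node, mk]
  refine node_eq ?_
  rw [List.ofFn_get]
  conv_rhs => rw [← List.ofFn_get L]
  rw [List.map_ofFn]
  rfl

theorem parts_neg_mk (L : List Tm) : (mk L).neg.parts = L.map neg := by
  rw [neg_mk, parts_mk]

theorem size_mk (L : List Tm) : (mk L).size = 1 + lsize L := by
  rw [mk, size_node, lsize]
  congr 1
  have := List.sum_ofFn (f := fun i : Fin L.length => (L.get i).size)
  rw [← this]
  conv_rhs => rw [← List.ofFn_get L]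
  rw [List.map_ofFn]
  rfl

theorem ht_mk_le {L : List Tm} {b : ℕ} (h : ∀ t ∈ L, t.ht ≤ b) : (mk L).ht ≤ 1 + b := by
  rw [mk, ht_node]
  have : (Finset.univ.sup fun i => (L.get i).ht) ≤ b :=
    Finset.sup_le fun i _ => h _ (List.get_mem L i)
  omega

end Tm

/-- the literals in a list of trees -/
def lits (L : List Tm) : List Lit := L.filterMap Tm.toLit

theorem lits_map_lit (xs : List Lit) : lits (xs.map Tm.lit) = xs := by
  induction xs with
  | nil => rfl
  | cons x xs ih =>
    rw [lits] at ih
    rw [List.map_cons, lits, List.filterMap_cons_some (f := Tm.toLit) (b := x) rfl, ih]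

theorem map_lits {L : List Tm} (h : ∀ t ∈ L, t.isLit = true) : (lits L).map Tm.lit = L := by
  induction L with
  | nil => rfl
  | cons t L ih =>
    have ht := h t (by simp)
    cases t with
    | lit l =>
      rw [lits] at ih
      rw [lits, List.filterMap_cons_some (f := Tm.toLit) (b := l) rfl, List.map_cons,
        ih fun t ht => h t (by simp [ht])]
    | node n f => simp [Tm.isLit] at ht

theorem length_lits_le (L : List Tm) : (lits L).length ≤ L.length := by
  unfold lits
  exact List.length_filterMap_le _ _

theorem lits_map_neg (L : List Tm) : lits (L.map Tm.neg) = (lits L).map negl := by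
  induction L with
  | nil => rfl
  | cons t L ih =>
    rw [lits] at ih ⊢
    cases t with
    | lit l =>
      rw [List.map_cons, List.filterMap_cons_some (f := Tm.toLit) (b := negl l) rfl, ih, lits, lits,
        List.filterMap_cons_some (f := Tm.toLit) (b := l) rfl, List.map_cons]
    | node n f =>
      rw [List.map_cons, List.filterMap_cons_none (f := Tm.toLit) rfl, ih, lits, lits,
        List.filterMap_cons_none (f := Tm.toLit) rfl]

theorem Has.mono {π : List Line} {X Y : Line} (h : Has π X) (hXY : X ⊆ Y) : Has π Y := by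
  obtain ⟨M, hM, hMX⟩ := h
  exact ⟨M, hM, List.Subset.trans hMX hXY⟩

theorem Has.ext {π : List Line} {X : Line} (h : Has π X) (δ : List Line) : Has (δ ++ π) X := by
  obtain ⟨M, hM, hMX⟩ := h
  exact ⟨M, List.mem_append_right _ hM, hMX⟩

theorem Has.cons {π : List Line} {X : Line} (h : Has π X) (L : Line) : Has (L :: π) X :=
  h.ext [L]

theorem Has.head (L : Line) (π : List Line) : Has (L :: π) L :=
  ⟨L, List.mem_cons_self, List.Subset.refl L⟩

theorem isProof_cons {F : Fml} {d : ℕ} {L : Line} {π : List Line} (h : IsProof F d π)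
    (hs : Step F π L) (hh : ∀ t ∈ L, t.ht < d) : IsProof F d (L :: π) := ⟨h, hs, hh⟩

/-- Resolving away a list of literals. -/
theorem cuts {F : Fml} {d : ℕ} {X : Line} (hX : ∀ t ∈ X, t.ht < d) (hd : 1 ≤ d) :
    ∀ (xs : List Lit) (π : List Line), IsProof F d π → Has π (xs.map Tm.lit ++ X) →
      (∀ x ∈ xs, Has π (Tm.lit (negl x) :: X)) →
      ∃ δ, IsProof F d (δ ++ π) ∧ Has (δ ++ π) X ∧
        psize δ ≤ xs.length * (1 + xs.length + lsize X) := by
  intro xs
  induction xs with
  | nil =>
    intro π h1 h2 _
    exact ⟨[], h1, by simpa using h2, by simp [psize]⟩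
  | cons x xs ih =>
    intro π h1 h2 h3
    have hM : Step F π (xs.map Tm.lit ++ X) := by
      refine Step.cut (Tm.lit x) (by simpa using h2) ?_
      rw [Tm.neg_lit, Tm.parts_lit]
      refine (h3 x (by simp)).mono ?_
      intro t ht
      rw [List.mem_cons] at ht
      rcases ht with ht | ht
      · subst ht; simp
      · simp [ht]
    have hMh : ∀ t ∈ xs.map Tm.lit ++ X, t.ht < d := by
      intro t ht
      rw [List.mem_append, List.mem_map] at ht
      rcases ht with ⟨l, _, rfl⟩ | ht
      · rw [Tm.ht_lit]; omega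
      · exact hX t ht
    obtain ⟨δ, g1, g2, g3⟩ := ih ((xs.map Tm.lit ++ X) :: π) ⟨h1, hM, hMh⟩ (Has.head _ _)
      fun y hy => (h3 y (by simp [hy])).cons _
    refine ⟨δ ++ [xs.map Tm.lit ++ X], by simpa using g1, by simpa using g2, ?_⟩
    rw [psize_append, psize_cons, psize_nil, lsize_append, lsize_lits, List.length_cons]
    have : xs.length * (1 + xs.length + lsize X) ≤ xs.length * (1 + (xs.length + 1) + lsize X) :=
      Nat.mul_le_mul_left _ (by omega)
    have e : (xs.length + 1) * (1 + (xs.length + 1) + lsize X) =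
        xs.length * (1 + (xs.length + 1) + lsize X) + (1 + (xs.length + 1) + lsize X) := by ring
    omega

/-- Several targets one after the other. -/
theorem reach_all {F : Fml} {d : ℕ} {B : ℕ} : ∀ (Xs : List Line) (π : List Line),
    IsProof F d π →
    (∀ X ∈ Xs, ∀ δ, IsProof F d (δ ++ π) → ∃ δ', IsProof F d (δ' ++ (δ ++ π)) ∧
      Has (δ' ++ (δ ++ π)) X ∧ psize δ' ≤ B) →
    ∃ δ, IsProof F d (δ ++ π) ∧ (∀ X ∈ Xs, Has (δ ++ π) X) ∧ psize δ ≤ Xs.length * B := by
  intro Xs
  induction Xs with
  | nil => intro π h _; exact ⟨[], h, by simp, by simp [psize]⟩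
  | cons X Xs ih =>
    intro π h1 h2
    obtain ⟨δ, g1, g2, g3⟩ := ih π h1 fun Y hY => h2 Y (by simp [hY])
    obtain ⟨δ', k1, k2, k3⟩ := h2 X (by simp) δ g1
    refine ⟨δ' ++ δ, by rw [List.append_assoc]; exact k1, ?_, ?_⟩
    · intro Y hY
      rw [List.append_assoc]
      rw [List.mem_cons] at hY
      rcases hY with rfl | hY
      · exact k2
      · exact (g2 Y hY).ext δ'
    · rw [psize_append, List.length_cons, Nat.add_mul, Nat.one_mul]
      omega

end Pool.Agent.H75.DH
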