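import Mathlib
import Pool.Agent.H75.DH.Defs

set_option autoImplicit false

/-!
Depth hierarchy on CNF formulas: soundness of the proof system.
-/

namespace Pool.Agent.H75.DH

theorem ev_neg (a : ℕ → Bool) (t : Tm) (b : Bool) : t.neg.ev a b ↔ ¬ t.ev a (!b) := by
  induction t generalizing b with
  | lit l =>
    show a l.1 = (!l.2) ↔ ¬ (a l.1 = l.2)
    cases a l.1 <;> cases l.2 <;> simp
  | node n f ih =>
    cases b
    · show (∃ i, (f i).neg.ev a true) ↔ ¬ ∀ i, (f i).ev a false
      rw [not_forall]
      exact exists_congr fun i => ih i true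
    · show (∀ i, (f i).neg.ev a false) ↔ ¬ ∃ i, (f i).ev a true
      rw [not_exists]
      exact forall_congr' fun i => ih i false

theorem ev_parts (a : ℕ → Bool) (t : Tm) : (∃ x ∈ t.parts, x.ev a true) ↔ t.ev a false := by
  cases t with
  | lit l => simp [Tm.parts, Tm.ev]
  | node n f =>
    show (∃ x ∈ List.ofFn f, x.ev a true) ↔ ∃ i, (f i).ev a true
    constructor
    · rintro ⟨x, hx, h⟩
      rw [List.mem_ofFn] at hx
      obtain ⟨i, rfl⟩ := hx
      exact ⟨i, h⟩
    · rintro ⟨i, h⟩
      exact ⟨f i, List.mem_ofFn.2 ⟨i, rfl⟩, h⟩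

/-- A line is true. -/
def tru (a : ℕ → Bool) (L : Line) : Prop := ∃ t ∈ L, t.ev a true

theorem tru_append (a : ℕ → Bool) (L M : Line) : tru a (L ++ M) ↔ tru a L ∨ tru a M := by
  unfold tru
  constructor
  · rintro ⟨t, ht, h⟩
    rw [List.mem_append] at ht
    rcases ht with ht | ht
    · exact Or.inl ⟨t, ht, h⟩
    · exact Or.inr ⟨t, ht, h⟩
  · rintro (⟨t, ht, h⟩ | ⟨t, ht, h⟩)
    · exact ⟨t, List.mem_append_left _ ht, h⟩
    · exact ⟨t, List.mem_append_right _ ht, h⟩

theorem tru_has {a : ℕ → Bool} {π : List Line} (h : ∀ L ∈ π, tru a L) {X : Line}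
    (hX : Has π X) : tru a X := by
  obtain ⟨M, hM, hMX⟩ := hX
  obtain ⟨t, ht, h⟩ := h M hM
  exact ⟨t, hMX ht, h⟩

/-- Soundness. -/
theorem sound {F : Fml} {d : ℕ} {a : ℕ → Bool} (hF : ∀ C ∈ F, tru a C) :
    ∀ π : List Line, IsProof F d π → ∀ L ∈ π, tru a L := by
  intro π
  induction π with
  | nil => intro _ L hL; simp at hL
  | cons L π ih =>
    intro h M hM
    obtain ⟨h1, h2, _⟩ := h
    rw [List.mem_cons] at hM
    rcases hM with rfl | hM
    · cases h2 with
      | ax v h1 h2 =>
        cases hv : a v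
        · exact ⟨_, h2, hv⟩
        · exact ⟨_, h1, hv⟩
      | hyp C hC h =>
        obtain ⟨t, ht, e⟩ := hF C hC
        exact ⟨t, h ht, e⟩
      | and n f h h' =>
        by_contra hc
        apply hc
        refine ⟨_, h, ?_⟩
        show ∀ i, (f i).ev a false
        intro i
        have := tru_has (ih h1) (h' i)
        rw [tru_append] at this
        rcases this with this | this
        · exact (ev_parts a (f i)).1 this
        · exact absurd this hc
      | cut t k1 k2 =>
        have e1 := tru_has (ih h1) k1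
        have e2 := tru_has (ih h1) k2
        rw [tru_append] at e2
        rcases e2 with e2 | e2
        · have e3 := (ev_parts a t.neg).1 e2
          rw [ev_neg] at e3
          obtain ⟨u, hu, e4⟩ := e1
          rw [List.mem_cons] at hu
          rcases hu with rfl | hu
          · exact absurd e4 e3
          · exact ⟨u, hu, e4⟩
        · exact e2
    · exact ih h1 M hM

theorem unsat_of_refutes {F : Fml} {d : ℕ} {π : List Line} (h : Refutes F d π) : Unsat F := by
  by_contra hc
  unfold Unsat at hc
  push Not at hc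
  obtain ⟨a, ha⟩ := hc
  obtain ⟨t, ht, _⟩ := sound ha π h.1 [] h.2
  simp at ht

end Pool.Agent.H75.DH
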