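import Mathlib
import Pool.Agent.H75.DH.Sound
import Pool.Agent.H75.DH.Base

set_option autoImplicit false

/-!
Depth hierarchy: completeness of the proof system. Every unsatisfiable formula whose lines have
depth at most `d`, `d ≥ 1`, has a depth `d` refutation (`complete`). With `unsat_of_refutes` this
shows that depth `d` refutations exist exactly for the unsatisfiable formulas. Not needed for the
main theorem.
-/

namespace Pool.Agent.H75.DH

theorem has_mono_list {π ρ : List Line} (h : π ⊆ ρ) {X : Line} (hX : Has π X) : Has ρ X := by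
  obtain ⟨M, hM, hMX⟩ := hX
  exact ⟨M, h hM, hMX⟩

theorem isProof_append {F : Fml} {d : ℕ} {ρ : List Line} (hρ : IsProof F d ρ) :
    ∀ π : List Line, IsProof F d π → IsProof F d (π ++ ρ) := by
  intro π
  induction π with
  | nil => intro _; exact hρ
  | cons L π ih =>
    intro h
    obtain ⟨h1, h2, h3⟩ := h
    refine isProof_cons (ih h1) ?_ h3
    have hs : π ⊆ π ++ ρ := List.subset_append_left _ _
    cases h2 with
    | ax v a b => exact Step.ax v a b
    | hyp C hC h => exact Step.hyp C hC h
    | and n f a b => exact Step.and n f a fun i => has_mono_list hs (b i)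
    | cut t a b => exact Step.cut t (has_mono_list hs a) (has_mono_list hs b)

/-- `X` is derivable. -/
def Der (F : Fml) (d : ℕ) (X : Line) : Prop := ∃ π, IsProof F d π ∧ Has π X

theorem Der.mono {F : Fml} {d : ℕ} {X Y : Line} (h : Der F d X) (hXY : X ⊆ Y) : Der F d Y := by
  obtain ⟨π, h1, h2⟩ := h
  exact ⟨π, h1, h2.mono hXY⟩

theorem der_all {F : Fml} {d : ℕ} : ∀ Xs : List Line, (∀ X ∈ Xs, Der F d X) →
    ∃ π, IsProof F d π ∧ ∀ X ∈ Xs, Has π X := by
  intro Xs
  induction Xs with
  | nil => intro _; exact ⟨[], trivial, by simp⟩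
  | cons X Xs ih =>
    intro h
    obtain ⟨π, h1, h2⟩ := ih fun Y hY => h Y (List.mem_cons_of_mem _ hY)
    obtain ⟨ρ, k1, k2⟩ := h X List.mem_cons_self
    refine ⟨ρ ++ π, isProof_append h1 ρ k1, ?_⟩
    intro Y hY
    rw [List.mem_cons] at hY
    rcases hY with rfl | hY
    · exact has_mono_list (List.subset_append_left _ _) k2
    · exact (h2 Y hY).ext ρ

theorem Der.cut {F : Fml} {d : ℕ} {L : Line} (hL : ∀ t ∈ L, t.ht < d) (t : Tm)
    (h1 : Der F d (t :: L)) (h2 : Der F d (t.neg.parts ++ L)) : Der F d L := by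
  obtain ⟨π, k1, k2⟩ := der_all [t :: L, t.neg.parts ++ L] (by
    intro X hX
    simp only [List.mem_cons, List.not_mem_nil, or_false] at hX
    rcases hX with rfl | rfl
    · exact h1
    · exact h2)
  exact ⟨L :: π, isProof_cons k1 (Step.cut t (k2 _ (by simp)) (k2 _ (by simp))) hL,
    Has.head _ _⟩

theorem Der.and {F : Fml} {d : ℕ} {L : Line} (hL : ∀ t ∈ L, t.ht < d) {n : ℕ} {f : Fin n → Tm}
    (hf : Tm.node n f ∈ L) (h : ∀ i, Der F d ((f i).parts ++ L)) : Der F d L := by
  obtain ⟨π, k1, k2⟩ := der_all (List.ofFn fun i => (f i).parts ++ L) (by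
    intro X hX
    rw [List.mem_ofFn] at hX
    obtain ⟨i, rfl⟩ := hX
    exact h i)
  exact ⟨L :: π, isProof_cons k1 (Step.and n f hf fun i => k2 _ (List.mem_ofFn.2 ⟨i, rfl⟩)) hL,
    Has.head _ _⟩

/-- the variables of a tree -/
def vars : Tm → List ℕ
  | .lit l => [l.1]
  | .node _ f => (List.ofFn fun i => vars (f i)).flatten

/-- the false literals -/
def gam (a : ℕ → Bool) (V : List ℕ) : Line := V.map fun v => Tm.lit (v, !a v)

theorem ht_gam {a : ℕ → Bool} {V : List ℕ} {d : ℕ} (hd : 1 ≤ d) : ∀ t ∈ gam a V, t.ht < d := by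
  intro t ht
  rw [gam, List.mem_map] at ht
  obtain ⟨v, _, rfl⟩ := ht
  rw [Tm.ht_lit]; omega

theorem ht_app {X Y : Line} {d : ℕ} (hX : ∀ t ∈ X, t.ht < d) (hY : ∀ t ∈ Y, t.ht < d) :
    ∀ t ∈ X ++ Y, t.ht < d := by
  intro t ht
  rw [List.mem_append] at ht
  rcases ht with ht | ht
  · exact hX t ht
  · exact hY t ht

/-- True formulas are derivable. -/
theorem der_true {F : Fml} {d : ℕ} (hd : 1 ≤ d) (a : ℕ → Bool) (V : List ℕ) (t : Tm)
    (ht : t.ht < d) (hV : vars t ⊆ V) :
    (t.ev a true → Der F d (t :: gam a V)) ∧ (t.ev a false → Der F d (t.parts ++ gam a V)) := by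
  induction t with
  | lit l =>
    have key : a l.1 = l.2 → Der F d (Tm.lit l :: gam a V) := by
      intro h
      have h1 : Tm.lit (l.1, !l.2) ∈ Tm.lit l :: gam a V := by
        refine List.mem_cons_of_mem _ (List.mem_map.2 ⟨l.1, hV (by simp [vars]), ?_⟩)
        rw [h]
      refine ⟨[Tm.lit l :: gam a V], isProof_cons trivial ?_ (ht_app (X := [Tm.lit l]) (by
        intro t ht'
        rw [List.mem_singleton] at ht'
        subst ht'
        exact ht) (ht_gam hd)), Has.head _ _⟩
      obtain ⟨v, s⟩ := l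
      cases s
      · exact Step.ax v h1 List.mem_cons_self
      · exact Step.ax v List.mem_cons_self h1
    exact ⟨key, key⟩
  | node n f ih =>
    have hch : ∀ i, (f i).ht < d := fun i => lt_trans (Tm.ht_child f i) ht
    have hVc : ∀ i, vars (f i) ⊆ V := by
      intro i v hv
      refine hV ?_
      show v ∈ (List.ofFn fun i => vars (f i)).flatten
      rw [List.mem_flatten]
      exact ⟨vars (f i), List.mem_ofFn.2 ⟨i, rfl⟩, hv⟩
    constructor
    · intro h
      have h' : ∀ i, (f i).ev a false := h
      refine Der.and (ht_app (X := [Tm.node n f]) (by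
        intro t ht'
        rw [List.mem_singleton] at ht'
        subst ht'
        exact ht) (ht_gam hd)) (List.mem_cons_self) fun i => ?_
      refine ((ih i (hch i) (hVc i)).2 (h' i)).mono ?_
      intro u hu
      rw [List.mem_append] at hu ⊢
      rcases hu with hu | hu
      · exact Or.inl hu
      · exact Or.inr (List.mem_cons_of_mem _ hu)
    · intro h
      obtain ⟨i, hi⟩ := (show ∃ i, (f i).ev a true from h)
      refine ((ih i (hch i) (hVc i)).1 hi).mono ?_
      intro u hu
      rw [List.mem_cons] at hu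
      rw [List.mem_append]
      rcases hu with rfl | hu
      · exact Or.inl (List.mem_ofFn.2 ⟨i, rfl⟩)
      · exact Or.inr hu

/-- Cut out false formulas. -/
theorem der_false {F : Fml} {d : ℕ} (hd : 1 ≤ d) (a : ℕ → Bool) (V : List ℕ) :
    ∀ C : Line, (∀ t ∈ C, t.ht < d) → (∀ t ∈ C, vars t.neg ⊆ V) → (∀ t ∈ C, ¬ t.ev a true) →
      Der F d (C ++ gam a V) → Der F d (gam a V) := by
  intro C
  induction C with
  | nil => intro _ _ _ h; exact h
  | cons t C ih =>
    intro h1 h2 h3 h4
    refine ih (fun u hu => h1 u (List.mem_cons_of_mem _ hu))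
      (fun u hu => h2 u (List.mem_cons_of_mem _ hu))
      (fun u hu => h3 u (List.mem_cons_of_mem _ hu)) ?_
    refine Der.cut (ht_app (fun u hu => h1 u (List.mem_cons_of_mem _ hu)) (ht_gam hd)) t h4 ?_
    have ht : t.neg.ht < d := by rw [Tm.ht_neg]; exact h1 t List.mem_cons_self
    have he : t.neg.ev a false := by
      rw [ev_neg]
      exact h3 t List.mem_cons_self
    refine ((der_true hd a V t.neg ht (h2 t List.mem_cons_self)).2 he).mono ?_
    intro u hu
    rw [List.mem_append] at hu ⊢
    rcases hu with hu | hu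
    · exact Or.inl hu
    · exact Or.inr (List.mem_append_right _ hu)

/-- Cut out all variables. -/
theorem der_nil {F : Fml} {d : ℕ} (hd : 1 ≤ d) : ∀ V : List ℕ,
    (∀ a : ℕ → Bool, Der F d (gam a V)) → Der F d [] := by
  intro V
  induction V with
  | nil => intro h; exact h fun _ => true
  | cons v V ih =>
    intro h
    refine ih fun a => ?_
    by_cases hv : v ∈ V
    · refine (h a).mono ?_
      intro u hu
      rw [gam, List.map_cons, List.mem_cons] at hu
      rcases hu with rfl | hu
      · exact List.mem_map.2 ⟨v, hv, rfl⟩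
      · exact hu
    · have key : ∀ s : Bool, gam (Function.update a v s) (v :: V) =
          Tm.lit (v, !s) :: gam a V := by
        intro s
        rw [gam, List.map_cons, Function.update_self, gam]
        congr 1
        refine List.map_congr_left fun w hw => ?_
        have : w ≠ v := fun e => hv (e ▸ hw)
        rw [Function.update_of_ne this]
      have h0 := h (Function.update a v false)
      have h1 := h (Function.update a v true)
      rw [key] at h0 h1
      exact Der.cut (ht_gam hd) (Tm.lit (v, true)) h0 h1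

/-- Completeness. -/
theorem complete {F : Fml} {d : ℕ} (hd : 1 ≤ d) (hF : ∀ L ∈ F, ∀ t ∈ L, t.ht < d)
    (hu : Unsat F) : ∃ π, Refutes F d π := by
  set V : List ℕ := F.flatMap fun L => L.flatMap fun t => vars t.neg with hV
  have h : ∀ a : ℕ → Bool, Der F d (gam a V) := by
    intro a
    obtain ⟨C, hC, hCa⟩ := hu a
    have hlit : ∀ t ∈ C ++ gam a V, t.ht < d := ht_app (hF C hC) (ht_gam hd)
    refine der_false hd a V C (hF C hC) ?_ hCa ?_
    · intro t ht v hv
      exact List.mem_flatMap.2 ⟨C, hC, List.mem_flatMap.2 ⟨t, ht, hv⟩⟩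
    · exact ⟨[C ++ gam a V], isProof_cons trivial
        (Step.hyp C hC (List.subset_append_left _ _)) hlit, Has.head _ _⟩
  obtain ⟨π, h1, M, hM, hMs⟩ := der_nil hd V h
  have : M = [] := List.subset_nil.1 hMs
  subst this
  exact ⟨π, h1, hM⟩

end Pool.Agent.H75.DH
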