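import Mathlib

set_option autoImplicit false

/-!
Depth hierarchy on CNF formulas: growth estimates.
-/

namespace Pool.Agent.H75.DH

theorem poly_bound (K k c : ℕ) : ∃ c' : ℕ, c ≤ c' ∧ ∀ n : ℕ,
    K * (2 * (n ^ c + c) + 1) ^ k ≤ n ^ c' + c' := by
  set V : ℕ := K * (2 * (1 + c) + 1) ^ k + c with hV
  refine ⟨c * k + V, by omega, fun n => ?_⟩
  by_cases hn : n ≤ 1
  · have h1 : n ^ c ≤ 1 := by
      calc n ^ c ≤ 1 ^ c := Nat.pow_le_pow_left hn c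
        _ = 1 := one_pow c
    have h2 : (2 * (n ^ c + c) + 1) ^ k ≤ (2 * (1 + c) + 1) ^ k :=
      Nat.pow_le_pow_left (by omega) k
    have h3 := Nat.mul_le_mul_left K h2
    omega
  · have hn2 : 2 ≤ n := by omega
    have h1 : 1 ≤ n ^ c := Nat.one_le_pow _ _ (by omega)
    have h2 : 2 * (n ^ c + c) + 1 ≤ (2 * (1 + c) + 1) * n ^ c := by nlinarith
    have h3 : (2 * (n ^ c + c) + 1) ^ k ≤ (2 * (1 + c) + 1) ^ k * n ^ (c * k) := by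
      calc _ ≤ ((2 * (1 + c) + 1) * n ^ c) ^ k := Nat.pow_le_pow_left h2 k
        _ = _ := by rw [mul_pow, ← pow_mul]
    have h4 : V ≤ n ^ V := by
      calc V ≤ 2 ^ V := Nat.lt_two_pow_self.le
        _ ≤ n ^ V := Nat.pow_le_pow_left hn2 V
    calc K * (2 * (n ^ c + c) + 1) ^ k ≤ K * ((2 * (1 + c) + 1) ^ k * n ^ (c * k)) :=
          Nat.mul_le_mul_left K h3
      _ = n ^ (c * k) * (K * (2 * (1 + c) + 1) ^ k) := by ring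
      _ ≤ n ^ (c * k) * V := Nat.mul_le_mul_left _ (by omega)
      _ ≤ n ^ (c * k) * n ^ V := Nat.mul_le_mul_left _ h4
      _ = n ^ (c * k + V) := (pow_add n (c * k) V).symm
      _ ≤ n ^ (c * k + V) + (c * k + V) := Nat.le_add_right _ _

open Filter in
theorem poly_lt_exp (c : ℕ) {δ : ℝ} (hδ : 0 < δ) :
    ∀ᶠ n : ℕ in atTop, ((n ^ c + c : ℕ) : ℝ) < (2 : ℝ) ^ ((n : ℝ) ^ δ) := by
  have hx : Tendsto (fun n : ℕ => (n : ℝ) ^ δ) atTop atTop :=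
    (tendsto_rpow_atTop hδ).comp tendsto_natCast_atTop_atTop
  have ho := isLittleO_rpow_exp_pos_mul_atTop ((c : ℝ) / δ) (Real.log_pos one_lt_two)
  have hC : (0 : ℝ) < 1 / (2 * (1 + c)) := by positivity
  have h1 := hx.eventually (ho.def hC)
  filter_upwards [h1, eventually_ge_atTop 1] with n h1 hn
  have hn0 : (0 : ℝ) ≤ n := Nat.cast_nonneg n
  have e1 : ((n : ℝ) ^ δ) ^ ((c : ℝ) / δ) = (n : ℝ) ^ c := by
    rw [← Real.rpow_mul hn0, mul_div_cancel₀ _ hδ.ne', Real.rpow_natCast]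
  have e2 : Real.exp (Real.log 2 * (n : ℝ) ^ δ) = (2 : ℝ) ^ ((n : ℝ) ^ δ) := by
    rw [Real.rpow_def_of_pos two_pos]
  rw [e1, e2, Real.norm_of_nonneg (by positivity), Real.norm_of_nonneg (by positivity)] at h1
  have h2 : ((n ^ c + c : ℕ) : ℝ) ≤ (1 + c) * (n : ℝ) ^ c := by
    push_cast
    have : (1 : ℝ) ≤ (n : ℝ) ^ c := one_le_pow₀ (by exact_mod_cast hn)
    have hc : (0 : ℝ) ≤ c := Nat.cast_nonneg c
    nlinarith
  have h3 : (1 + (c : ℝ)) * (n : ℝ) ^ c ≤ 1 / 2 * (2 : ℝ) ^ ((n : ℝ) ^ δ) := by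
    calc (1 + (c : ℝ)) * (n : ℝ) ^ c ≤
          (1 + c) * (1 / (2 * (1 + c)) * (2 : ℝ) ^ ((n : ℝ) ^ δ)) :=
          mul_le_mul_of_nonneg_left h1 (by positivity)
      _ = _ := by field_simp
  have h4 : (0 : ℝ) < (2 : ℝ) ^ ((n : ℝ) ^ δ) := by positivity
  linarith

open Filter in
theorem growth (c : ℕ) {ε : ℝ} (hε : 0 < ε) : ∃ n₀ : ℕ, ∀ n ≥ n₀, ∀ s : ℕ,
    (2 : ℝ) ^ ((n : ℝ) ^ ε) ≤ ((n ^ c + c : ℕ) : ℝ) * (s : ℝ) ^ 3 →
      (2 : ℝ) ^ ((n : ℝ) ^ (ε / 2)) ≤ s := by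
  have hδ : 0 < ε / 2 := by positivity
  have hx : Tendsto (fun n : ℕ => (n : ℝ) ^ (ε / 2)) atTop atTop :=
    (tendsto_rpow_atTop hδ).comp tendsto_natCast_atTop_atTop
  have h := (poly_lt_exp c hδ).and (hx.eventually_ge_atTop 4)
  obtain ⟨n₀, hn₀⟩ := eventually_atTop.1 h
  refine ⟨n₀, fun n hn s hs => ?_⟩
  obtain ⟨h1, h2⟩ := hn₀ n hn
  by_contra hc
  push Not at hc
  set x := (n : ℝ) ^ (ε / 2) with hxdef
  have h3 : (s : ℝ) ^ 3 ≤ ((2 : ℝ) ^ x) ^ 3 := pow_le_pow_left₀ (Nat.cast_nonneg s) hc.le 3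
  have h4 : (0 : ℝ) < ((2 : ℝ) ^ x) ^ 3 := by positivity
  have h5 : ((n ^ c + c : ℕ) : ℝ) * (s : ℝ) ^ 3 < (2 : ℝ) ^ x * ((2 : ℝ) ^ x) ^ 3 :=
    lt_of_le_of_lt (mul_le_mul_of_nonneg_left h3 (Nat.cast_nonneg _))
      (mul_lt_mul_of_pos_right h1 h4)
  have h6 : (2 : ℝ) ^ x * ((2 : ℝ) ^ x) ^ 3 = (2 : ℝ) ^ (4 * x) := by
    rw [mul_comm 4 x, Real.rpow_mul (by norm_num : (0 : ℝ) ≤ 2)]
    norm_cast
    ring
  have h7 : (n : ℝ) ^ ε = x * x := by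
    rw [hxdef, ← Real.rpow_add_of_nonneg (Nat.cast_nonneg n) hδ.le hδ.le]
    congr 1
    ring
  have h8 : (2 : ℝ) ^ (4 * x) ≤ (2 : ℝ) ^ ((n : ℝ) ^ ε) := by
    rw [h7]
    exact Real.rpow_le_rpow_of_exponent_le (by norm_num) (by nlinarith)
  linarith

end Pool.Agent.H75.DH
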