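import Mathlib
import Pool.Agent.H75.DH.Base

set_option autoImplicit false

/-!
Depth hierarchy on CNF formulas: replacing the bottom gates by extension variables.
-/

namespace Pool.Agent.H75.DH

/-- renaming of variables -/
def ren (eV : ℕ → ℕ) (l : Lit) : Lit := (eV l.1, l.2)

theorem ren_negl (eV : ℕ → ℕ) (l : Lit) : ren eV (negl l) = negl (ren eV l) := rfl

/-- the list whose conjunction (or whose negated conjunction) is the bottom gate -/
def zl (b : Bool) (L : List Tm) : List Lit := if b then lits L else (lits L).map negl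

theorem zl_true (L : List Tm) : zl true L = lits L := rfl

theorem zl_false (L : List Tm) : zl false L = (lits L).map negl := rfl

theorem length_zl_le (b : Bool) (L : List Tm) : (zl b L).length ≤ L.length := by
  cases b
  · rw [zl_false, List.length_map]; exact length_lits_le L
  · exact length_lits_le L

theorem map_negl_negl (xs : List Lit) : (xs.map negl).map negl = xs := by
  rw [List.map_map]
  have : negl ∘ negl = id := by funext l; exact negl_negl l
  rw [this, List.map_id]

theorem zl_neg (b : Bool) (L : List Tm) : zl b (L.map Tm.neg) = zl (!b) L := by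
  cases b
  · show ((lits (L.map Tm.neg)).map negl) = lits L
    rw [lits_map_neg, map_negl_negl]
  · show lits (L.map Tm.neg) = (lits L).map negl
    rw [lits_map_neg]

/-- replace the bottom gates by variables; `b` is true at an AND position -/
def T (eV : ℕ → ℕ) (eZ : List Lit → ℕ) : Tm → Bool → Tm
  | .lit l, _ => .lit (ren eV l)
  | .node n f, b =>
    if ∀ i, (f i).isLit = true then .lit (eZ (zl b (List.ofFn f)), b)
    else .node n fun i => T eV eZ (f i) (!b)

/-- the lists at the bottom gates -/
def zs : Tm → Bool → List (List Lit)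
  | .lit _, _ => []
  | .node n f, b =>
    if ∀ i, (f i).isLit = true then [zl b (List.ofFn f)]
    else (List.ofFn fun i => zs (f i) (!b)).flatten

section

variable (eV : ℕ → ℕ) (eZ : List Lit → ℕ)

theorem T_lit (l : Lit) (b : Bool) : T eV eZ (.lit l) b = .lit (ren eV l) := rfl

theorem T_flat {n : ℕ} {f : Fin n → Tm} (h : ∀ i, (f i).isLit = true) (b : Bool) :
    T eV eZ (.node n f) b = .lit (eZ (zl b (List.ofFn f)), b) := by
  rw [T, if_pos h]

theorem T_node {n : ℕ} {f : Fin n → Tm} (h : ¬ ∀ i, (f i).isLit = true) (b : Bool) :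
    T eV eZ (.node n f) b = .node n fun i => T eV eZ (f i) (!b) := by
  rw [T, if_neg h]

theorem zs_flat {n : ℕ} {f : Fin n → Tm} (h : ∀ i, (f i).isLit = true) (b : Bool) :
    zs (.node n f) b = [zl b (List.ofFn f)] := by
  rw [zs, if_pos h]

theorem zs_node {n : ℕ} {f : Fin n → Tm} (h : ¬ ∀ i, (f i).isLit = true) (b : Bool) :
    zs (.node n f) b = (List.ofFn fun i => zs (f i) (!b)).flatten := by
  rw [zs, if_neg h]

theorem T_neg (t : Tm) (b : Bool) : T eV eZ t.neg b = (T eV eZ t (!b)).neg := by
  induction t generalizing b with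
  | lit l => rw [Tm.neg_lit, T_lit, T_lit, Tm.neg_lit, ren_negl]
  | node n f ih =>
    rw [Tm.neg_node]
    by_cases h : ∀ i, (f i).isLit = true
    · rw [T_flat eV eZ h, T_flat eV eZ (fun i => by rw [Tm.isLit_neg]; exact h i), Tm.neg_lit]
      have e : (List.ofFn fun i => (f i).neg) = (List.ofFn f).map Tm.neg := by
        rw [List.map_ofFn]; rfl
      rw [e, zl_neg]
      simp [negl]
    · rw [T_node eV eZ h, T_node eV eZ (fun h' => h fun i => by rw [← Tm.isLit_neg]; exact h' i),
        Tm.neg_node]
      congr 1
      funext i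
      exact ih i _

theorem one_le_ht {t : Tm} (h : t.isLit ≠ true) : 1 ≤ t.ht := by
  cases t with
  | lit l => exact absurd rfl h
  | node n f => rw [Tm.ht_node]; omega

theorem ht_T (t : Tm) (b : Bool) : (T eV eZ t b).ht ≤ t.ht - 1 := by
  induction t generalizing b with
  | lit l => rw [T_lit, Tm.ht_lit]; omega
  | node n f ih =>
    by_cases h : ∀ i, (f i).isLit = true
    · rw [T_flat eV eZ h, Tm.ht_lit]; omega
    · rw [T_node eV eZ h, Tm.ht_node, Tm.ht_node]
      push Not at h
      obtain ⟨j, hj⟩ := h
      have h1 := one_le_ht hj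
      have h2 := Finset.le_sup (f := fun i => (f i).ht) (Finset.mem_univ j)
      have h3 : (Finset.univ.sup fun i => (T eV eZ (f i) (!b)).ht) ≤
          (Finset.univ.sup fun i => (f i).ht) - 1 := by
        refine Finset.sup_le fun i _ => (ih i (!b)).trans ?_
        have := Finset.le_sup (f := fun i => (f i).ht) (Finset.mem_univ i)
        omega
      omega

theorem size_T (t : Tm) (b : Bool) : (T eV eZ t b).size ≤ t.size := by
  induction t generalizing b with
  | lit l => rw [T_lit, Tm.size_lit, Tm.size_lit]
  | node n f ih =>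
    by_cases h : ∀ i, (f i).isLit = true
    · rw [T_flat eV eZ h, Tm.size_lit]; exact Tm.one_le_size _
    · rw [T_node eV eZ h, Tm.size_node, Tm.size_node]
      have := Finset.sum_le_sum fun i (_ : i ∈ Finset.univ) => ih i (!b)
      omega

theorem csize_append (F G : List (List Lit)) : csize (F ++ G) = csize F + csize G := by simp [csize]

theorem csize_cons (C : List Lit) (G : List (List Lit)) : csize (C :: G) = 1 + C.length + csize G := by
  simp [csize]

theorem csize_flatten (L : List (List (List Lit))) : csize L.flatten = (L.map csize).sum := by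
  induction L with
  | nil => rfl
  | cons F L ih => rw [List.flatten_cons, csize_append, ih, List.map_cons, List.sum_cons]

theorem csize_zs (t : Tm) (b : Bool) : csize (zs t b) ≤ t.size := by
  induction t generalizing b with
  | lit l => simp [zs, csize]
  | node n f ih =>
    by_cases h : ∀ i, (f i).isLit = true
    · rw [zs_flat h, csize_cons]
      have h1 := length_zl_le b (List.ofFn f)
      rw [List.length_ofFn] at h1
      have h2 := Tm.n_lt_size n f
      have h3 : csize ([] : List (List Lit)) = 0 := rfl
      omega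
    · rw [zs_node h, csize_flatten, List.map_ofFn, List.sum_ofFn, Tm.size_node]
      have := Finset.sum_le_sum fun i (_ : i ∈ Finset.univ) => ih i (!b)
      simp only [Function.comp]
      omega

/-- translate a line -/
def TL (L : Line) : Line := L.map fun t => T eV eZ t true

theorem TL_append (L M : Line) : TL eV eZ (L ++ M) = TL eV eZ L ++ TL eV eZ M := by
  simp [TL]

theorem TL_cons (t : Tm) (M : Line) : TL eV eZ (t :: M) = T eV eZ t true :: TL eV eZ M := rfl

theorem mem_TL {t : Tm} {L : Line} (h : t ∈ L) : T eV eZ t true ∈ TL eV eZ L :=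
  List.mem_map_of_mem h

theorem TL_subset {L M : Line} (h : L ⊆ M) : TL eV eZ L ⊆ TL eV eZ M :=
  List.map_subset _ h

theorem TL_lits (xs : List Lit) : TL eV eZ (xs.map Tm.lit) = (xs.map (ren eV)).map Tm.lit := by
  rw [TL, List.map_map, List.map_map]
  rfl

theorem lsize_TL (L : Line) : lsize (TL eV eZ L) ≤ lsize L := by
  induction L with
  | nil => exact le_rfl
  | cons t L ih =>
    rw [TL_cons, lsize_cons, lsize_cons]
    have := size_T eV eZ t true
    omega

theorem ht_TL {d : ℕ} (hd : 1 ≤ d) {L : Line} (h : ∀ t ∈ L, t.ht < d + 1) :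
    ∀ t ∈ TL eV eZ L, t.ht < d := by
  intro t ht
  rw [TL, List.mem_map] at ht
  obtain ⟨u, hu, rfl⟩ := ht
  have h1 := ht_T eV eZ u true
  have h2 := h u hu
  omega

end

/-- A bottom OR gate is replaced by its variable. -/
theorem orStep {F : Fml} {d : ℕ} {X : Line} (hX : ∀ t ∈ X, t.ht < d) (hd : 1 ≤ d)
    (ys : List Lit) (z : ℕ) (hz : ∀ y ∈ ys, [Tm.lit (z, false), Tm.lit (negl y)] ∈ F) (π : List Line)
    (hπ : IsProof F d π) (h : Has π (ys.map Tm.lit ++ X)) :
    ∃ δ, IsProof F d (δ ++ π) ∧ Has (δ ++ π) (Tm.lit (z, false) :: X) ∧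
      psize δ ≤ ys.length * (2 * (3 + ys.length + lsize X)) := by
  have hX1 : ∀ t ∈ Tm.lit (z, false) :: X, t.ht < d := by
    intro t ht
    rw [List.mem_cons] at ht
    rcases ht with rfl | ht
    · rw [Tm.ht_lit]; omega
    · exact hX t ht
  obtain ⟨δ1, g1, g2, g3⟩ := reach_all (F := F) (d := d) (B := 3 + lsize X)
    (ys.map fun y => Tm.lit (negl y) :: Tm.lit (z, false) :: X) π hπ (by
      intro Y hY δ hδ
      rw [List.mem_map] at hY
      obtain ⟨y, hy, rfl⟩ := hY
      refine ⟨[Tm.lit (negl y) :: Tm.lit (z, false) :: X], ?_, Has.head _ _, ?_⟩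
      · refine isProof_cons hδ (Step.hyp _ (hz y hy) ?_) ?_
        · intro l hl
          simp only [List.mem_cons, List.not_mem_nil, or_false] at hl
          rcases hl with rfl | rfl <;> simp
        · intro t ht
          rw [List.mem_cons] at ht
          rcases ht with rfl | ht
          · rw [Tm.ht_lit]; omega
          · exact hX1 t ht
      · rw [psize_cons, psize_nil, lsize_cons, lsize_cons, Tm.size_lit, Tm.size_lit]; omega)
  rw [List.length_map] at g3
  obtain ⟨δ2, k1, k2, k3⟩ := cuts (F := F) hX1 hd ys (δ1 ++ π) g1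
    ((h.ext δ1).mono (by
      intro t ht
      rw [List.mem_append] at ht ⊢
      rcases ht with ht | ht
      · exact Or.inl ht
      · exact Or.inr (List.mem_cons_of_mem _ ht)))
    fun y hy => g2 _ (List.mem_map_of_mem hy)
  refine ⟨δ2 ++ δ1, by rw [List.append_assoc]; exact k1, by rw [List.append_assoc]; exact k2, ?_⟩
  rw [psize_append]
  rw [lsize_cons, Tm.size_lit] at k3
  have e : ys.length * (2 * (3 + ys.length + lsize X)) =
      ys.length * (1 + ys.length + (1 + lsize X)) + ys.length * (3 + lsize X) +
        ys.length * (1 + ys.length) := by ring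
  omega

/-- A bottom AND gate is replaced by its variable. -/
theorem andStep {F : Fml} {d : ℕ} {X : Line} (hX : ∀ t ∈ X, t.ht < d) (hd : 1 ≤ d)
    (xs : List Lit) (z : ℕ) (hz : Tm.lit (z, true) :: (xs.map negl).map Tm.lit ∈ F) (hzX : Tm.lit (z, true) ∈ X)
    (π : List Line) (hπ : IsProof F d π) (h : ∀ x ∈ xs, Has π (Tm.lit x :: X)) :
    ∃ δ, IsProof F d (δ ++ π) ∧ Has (δ ++ π) X ∧
      psize δ ≤ (xs.length + 1) * (1 + xs.length + lsize X) := by
  have hY : IsProof F d (((xs.map negl).map Tm.lit ++ X) :: π) := by
    refine isProof_cons hπ (Step.hyp _ hz ?_) ?_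
    · intro l hl
      rw [List.mem_cons] at hl
      rcases hl with rfl | hl
      · exact List.mem_append_right _ hzX
      · exact List.mem_append_left _ hl
    · intro t ht
      rw [List.mem_append, List.mem_map] at ht
      rcases ht with ⟨l, _, rfl⟩ | ht
      · rw [Tm.ht_lit]; omega
      · exact hX t ht
  obtain ⟨δ, k1, k2, k3⟩ := cuts (F := F) hX hd (xs.map negl) _ hY (Has.head _ _) (by
    intro x hx
    rw [List.mem_map] at hx
    obtain ⟨y, hy, rfl⟩ := hx
    rw [negl_negl]
    exact (h y hy).cons _)
  refine ⟨δ ++ [(xs.map negl).map Tm.lit ++ X], by simpa using k1, by simpa using k2, ?_⟩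
  rw [psize_append, psize_cons, psize_nil, lsize_append, lsize_lits, List.length_map]
  rw [List.length_map] at k3
  have e : (xs.length + 1) * (1 + xs.length + lsize X) =
      xs.length * (1 + xs.length + lsize X) + (1 + xs.length + lsize X) := by ring
  omega

/-- One step of the transfer. -/
theorem transStep (eV : ℕ → ℕ) (eZ : List Lit → ℕ) {F F' : Fml} {d : ℕ} (hd : 1 ≤ d)
    {E : List (List Lit)} (hF : ∀ C ∈ F, TL eV eZ C ∈ F')
    (hE1 : ∀ l ∈ E, Tm.lit (eZ l, true) :: ((l.map (ren eV)).map negl).map Tm.lit ∈ F')
    (hE2 : ∀ l ∈ E, ∀ x ∈ l, [Tm.lit (eZ l, false), Tm.lit (ren eV x)] ∈ F')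
    {S : ℕ} {π : List Line} (hSπ : ∀ M ∈ π, 1 + lsize M ≤ S)
    (hEπ : ∀ M ∈ π, ∀ t ∈ M, ∀ l ∈ zs t true, l ∈ E)
    {π' : List Line} (hπ' : IsProof F' d π') (hinv : ∀ M ∈ π, Has π' (TL eV eZ M))
    {L : Line} (hL : Step F π L) (hh : ∀ t ∈ L, t.ht < d + 1) (hSL : 1 + lsize L ≤ S)
    (hEL : ∀ t ∈ L, ∀ l ∈ zs t true, l ∈ E) :
    ∃ δ, IsProof F' d (δ ++ π') ∧ Has (δ ++ π') (TL eV eZ L) ∧ psize δ ≤ 9 * S ^ 3 := by
  set X := TL eV eZ L with hXdef
  have hX : ∀ t ∈ X, t.ht < d := ht_TL eV eZ hd hh
  have hXs : 1 + lsize X ≤ S := by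
    have : lsize X ≤ lsize L := lsize_TL eV eZ L
    omega
  have hS1 : 1 ≤ S := by omega
  have hS3 : S ≤ S ^ 3 := Nat.le_self_pow (by norm_num) S
  have hS23 : S ^ 2 ≤ S ^ 3 := Nat.pow_le_pow_right hS1 (by norm_num)
  -- transfer of `Has`
  have hHas : ∀ Y : Line, Has π (Y ++ L) → Has π' (TL eV eZ Y ++ X) := by
    intro Y ⟨M, hM, hMY⟩
    refine (hinv M hM).mono ?_
    rw [hXdef, ← TL_append]
    exact TL_subset eV eZ hMY
  have one : ∀ {ρ : List Line}, IsProof F' d ρ → Step F' ρ X →
      IsProof F' d ([X] ++ ρ) ∧ Has ([X] ++ ρ) X ∧ psize [X] ≤ S := by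
    intro ρ h1 h2
    refine ⟨isProof_cons h1 h2 hX, Has.head _ _, ?_⟩
    rw [psize_cons, psize_nil]
    omega
  cases hL with
  | ax v h1 h2 =>
    obtain ⟨g1, g2, g3⟩ := one hπ' (Step.ax (eV v) (mem_TL eV eZ h1) (mem_TL eV eZ h2))
    exact ⟨[X], g1, g2, by omega⟩
  | hyp C hC h =>
    obtain ⟨g1, g2, g3⟩ := one hπ' (Step.hyp _ (hF C hC) (TL_subset eV eZ h))
    exact ⟨[X], g1, g2, by omega⟩
  | and n f h h' =>
    have hn : n < S := by
      have h1 := Tm.n_lt_size n f
      have h2 := size_le_lsize h
      omega
    have hTX := mem_TL eV eZ h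
    by_cases hfl : ∀ i, (f i).isLit = true
    · -- bottom gate
      have hE : lits (List.ofFn f) ∈ E :=
        hEL _ h _ (by rw [zs_flat hfl, zl_true]; exact List.mem_singleton.2 rfl)
      rw [T_flat eV eZ hfl, zl_true] at hTX
      have hlen : (lits (List.ofFn f)).length ≤ n := by
        have := length_lits_le (List.ofFn f)
        rwa [List.length_ofFn] at this
      obtain ⟨δ, g1, g2, g3⟩ := andStep (F := F') hX hd ((lits (List.ofFn f)).map (ren eV))
        (eZ (lits (List.ofFn f))) (hE1 _ hE) hTX π' hπ' (by
          intro x hx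
          rw [List.mem_map] at hx
          obtain ⟨y, hy, rfl⟩ := hx
          rw [lits, List.mem_filterMap] at hy
          obtain ⟨t, ht, hty⟩ := hy
          rw [List.mem_ofFn] at ht
          obtain ⟨i, rfl⟩ := ht
          have hfi : f i = Tm.lit y := by
            cases hfi : f i with
            | lit l =>
              rw [hfi] at hty
              simp only [Tm.toLit, Option.some.injEq] at hty
              rw [hty]
            | node m g => have := hfl i; rw [hfi] at this; simp [Tm.isLit] at this
          have := hHas _ (h' i)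
          rw [hfi] at this
          exact this)
      refine ⟨δ, g1, g2, g3.trans ?_⟩
      rw [List.length_map]
      have a1 : (lits (List.ofFn f)).length + 1 ≤ S := by omega
      have a2 : 1 + (lits (List.ofFn f)).length + lsize X ≤ 2 * S := by omega
      calc _ ≤ S * (2 * S) := Nat.mul_le_mul a1 a2
        _ = 2 * S ^ 2 := by ring
        _ ≤ 9 * S ^ 3 := by omega
    · rw [T_node eV eZ hfl] at hTX
      have hEf : ∀ i, ∀ l ∈ zs (f i) false, l ∈ E := by
        intro i l hl
        refine hEL _ h l ?_
        rw [zs_node hfl, List.mem_flatten]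
        exact ⟨zs (f i) false, List.mem_ofFn.2 ⟨i, rfl⟩, hl⟩
      obtain ⟨δ, g1, g2, g3⟩ := reach_all (F := F') (d := d) (B := 8 * S ^ 2)
        (List.ofFn fun i => (T eV eZ (f i) false).parts ++ X) π' hπ' (by
          intro Y hY δ hδ
          rw [List.mem_ofFn] at hY
          obtain ⟨i, rfl⟩ := hY
          have hi := (hHas _ (h' i)).ext δ
          have hsz : (f i).size + 1 ≤ S := by
            have h1 := size_le_lsize h
            rw [Tm.size_node] at h1
            have h2 := Finset.single_le_sum (f := fun i => (f i).size)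
              (fun i _ => Nat.zero_le _) (Finset.mem_univ i)
            omega
          cases hfi : f i with
          | lit x =>
            rw [hfi] at hi
            exact ⟨[], hδ, hi, by simp [psize]⟩
          | node m g =>
            rw [hfi] at hi
            rw [hfi] at hsz
            by_cases hgl : ∀ j, (g j).isLit = true
            · rw [T_flat eV eZ hgl, zl_false]
              have hE : (lits (List.ofFn g)).map negl ∈ E :=
                hEf i _ (by rw [hfi, zs_flat hgl, zl_false]; exact List.mem_singleton.2 rfl)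
              have hlen : (lits (List.ofFn g)).length ≤ m := by
                have := length_lits_le (List.ofFn g)
                rwa [List.length_ofFn] at this
              have hm := Tm.n_lt_size m g
              have e0 : (lits (List.ofFn g)).map Tm.lit = List.ofFn g := map_lits (by
                intro t ht
                rw [List.mem_ofFn] at ht
                obtain ⟨j, rfl⟩ := ht
                exact hgl j)
              rw [Tm.parts_node, ← e0, TL_lits] at hi
              obtain ⟨δ', k1, k2, k3⟩ := orStep (F := F') hX hd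
                ((lits (List.ofFn g)).map (ren eV)) (eZ ((lits (List.ofFn g)).map negl)) (by
                  intro y hy
                  rw [List.mem_map] at hy
                  obtain ⟨x, hx, rfl⟩ := hy
                  exact hE2 _ hE (negl x) (List.mem_map_of_mem hx)) (δ ++ π') hδ hi
              refine ⟨δ', k1, k2, k3.trans ?_⟩
              rw [List.length_map]
              have a1 : (lits (List.ofFn g)).length ≤ S := by omega
              have a2 : 2 * (3 + (lits (List.ofFn g)).length + lsize X) ≤ 8 * S := by omega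
              calc _ ≤ S * (8 * S) := Nat.mul_le_mul a1 a2
                _ = 8 * S ^ 2 := by ring
            · rw [T_node eV eZ hgl]
              refine ⟨[], hδ, ?_, by simp [psize]⟩
              have e : TL eV eZ (Tm.node m g).parts =
                  (Tm.node m fun j => T eV eZ (g j) (!false)).parts := by
                rw [Tm.parts_node, Tm.parts_node, TL, List.map_ofFn]
                rfl
              rw [← e]
              exact hi)
      rw [List.length_ofFn] at g3
      have hst : Step F' (δ ++ π') X := by
        refine Step.and n _ hTX fun i => ?_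
        exact g2 _ (List.mem_ofFn.2 ⟨i, rfl⟩)
      obtain ⟨k1, k2, k3⟩ := one g1 hst
      refine ⟨[X] ++ δ, by rw [List.append_assoc]; exact k1, by rw [List.append_assoc]; exact k2,
        ?_⟩
      rw [psize_append]
      have a1 : n * (8 * S ^ 2) ≤ S * (8 * S ^ 2) := Nat.mul_le_mul_right _ hn.le
      have a2 : S * (8 * S ^ 2) = 8 * S ^ 3 := by ring
      omega
  | cut t h1 h2 =>
    obtain ⟨M, hM, hMt⟩ := h1
    by_cases htM : t ∈ M
    · have hH1 : Has π' (T eV eZ t true :: X) := (hHas [t] ⟨M, hM, hMt⟩)
      have hH2 := hHas _ h2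
      have hstM : t.size + 1 ≤ S := by
        have := size_le_lsize htM
        have := hSπ M hM
        omega
      cases t with
      | lit x =>
        obtain ⟨g1, g2, g3⟩ := one hπ' (Step.cut (Tm.lit (ren eV x)) hH1 hH2)
        exact ⟨[X], g1, g2, by omega⟩
      | node n f =>
        by_cases hfl : ∀ i, (f i).isLit = true
        · have hE : lits (List.ofFn f) ∈ E :=
            hEπ M hM _ htM _ (by rw [zs_flat hfl, zl_true]; exact List.mem_singleton.2 rfl)
          rw [T_flat eV eZ hfl, zl_true] at hH1
          have hlen : (lits (List.ofFn f)).length ≤ n := by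
            have := length_lits_le (List.ofFn f)
            rwa [List.length_ofFn] at this
          have hn := Tm.n_lt_size n f
          have e0 : (lits (List.ofFn f)).map Tm.lit = List.ofFn f := map_lits (by
            intro t ht
            rw [List.mem_ofFn] at ht
            obtain ⟨j, rfl⟩ := ht
            exact hfl j)
          have e1 : (Tm.node n f).neg.parts = ((lits (List.ofFn f)).map negl).map Tm.lit := by
            rw [← lits_map_neg, map_lits (by
              intro t ht
              rw [List.mem_map] at ht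
              obtain ⟨u, hu, rfl⟩ := ht
              rw [List.mem_ofFn] at hu
              obtain ⟨j, rfl⟩ := hu
              rw [Tm.isLit_neg]
              exact hfl j), List.map_ofFn, Tm.neg_node, Tm.parts_node]
            rfl
          rw [e1, TL_lits] at hH2
          obtain ⟨δ, k1, k2, k3⟩ := orStep (F := F') hX hd
            (((lits (List.ofFn f)).map negl).map (ren eV)) (eZ (lits (List.ofFn f))) (by
              intro y hy
              rw [List.mem_map] at hy
              obtain ⟨x, hx, rfl⟩ := hy
              rw [List.mem_map] at hx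
              obtain ⟨w, hw, rfl⟩ := hx
              rw [← ren_negl, negl_negl]
              exact hE2 _ hE w hw) π' hπ' hH2
          obtain ⟨g1, g2, g3⟩ := one k1
            (Step.cut (Tm.lit (eZ (lits (List.ofFn f)), true)) (hH1.ext δ) k2)
          refine ⟨[X] ++ δ, by rw [List.append_assoc]; exact g1,
            by rw [List.append_assoc]; exact g2, ?_⟩
          rw [psize_append]
          rw [List.length_map, List.length_map] at k3
          have a1 : (lits (List.ofFn f)).length ≤ S := by omega
          have a2 : 2 * (3 + (lits (List.ofFn f)).length + lsize X) ≤ 8 * S := by omega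
          have a3 := Nat.mul_le_mul a1 a2
          have a4 : S * (8 * S) = 8 * S ^ 2 := by ring
          omega
        · rw [T_node eV eZ hfl] at hH1
          have e : TL eV eZ (Tm.node n f).neg.parts =
              (Tm.node n fun i => T eV eZ (f i) (!true)).neg.parts := by
            rw [Tm.neg_node, Tm.neg_node, Tm.parts_node, Tm.parts_node, TL, List.map_ofFn]
            congr 1
            funext i
            exact T_neg eV eZ (f i) true
          rw [e] at hH2
          obtain ⟨g1, g2, g3⟩ := one hπ' (Step.cut _ hH1 hH2)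
          exact ⟨[X], g1, g2, by omega⟩
    · refine ⟨[], hπ', ?_, by simp [psize]⟩
      refine (hinv M hM).mono (TL_subset eV eZ ?_)
      intro u hu
      have := hMt hu
      rw [List.mem_cons] at this
      rcases this with rfl | this
      · exact absurd hu htM
      · exact this

/-- The transfer of a depth `d + 1` proof to a depth `d` proof with extension variables. -/
theorem trans (eV : ℕ → ℕ) (eZ : List Lit → ℕ) {F F' : Fml} {d : ℕ} (hd : 1 ≤ d)
    {E : List (List Lit)} (hF : ∀ C ∈ F, TL eV eZ C ∈ F')
    (hE1 : ∀ l ∈ E, Tm.lit (eZ l, true) :: ((l.map (ren eV)).map negl).map Tm.lit ∈ F')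
    (hE2 : ∀ l ∈ E, ∀ x ∈ l, [Tm.lit (eZ l, false), Tm.lit (ren eV x)] ∈ F')
    {S : ℕ} : ∀ π : List Line, IsProof F (d + 1) π → (∀ M ∈ π, 1 + lsize M ≤ S) →
    (∀ M ∈ π, ∀ t ∈ M, ∀ l ∈ zs t true, l ∈ E) →
    ∃ π', IsProof F' d π' ∧ (∀ M ∈ π, Has π' (TL eV eZ M)) ∧
      psize π' ≤ π.length * (9 * S ^ 3) := by
  intro π
  induction π with
  | nil => intro _ _ _; exact ⟨[], trivial, by simp, by simp [psize]⟩
  | cons L π ih =>
    intro h hS hE
    obtain ⟨h1, h2, h3⟩ := h
    obtain ⟨π', g1, g2, g3⟩ := ih h1 (fun M hM => hS M (List.mem_cons_of_mem _ hM))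
      fun M hM => hE M (List.mem_cons_of_mem _ hM)
    obtain ⟨δ, k1, k2, k3⟩ := transStep eV eZ hd hF hE1 hE2
      (fun M hM => hS M (List.mem_cons_of_mem _ hM)) (fun M hM => hE M (List.mem_cons_of_mem _ hM))
      g1 g2 h2 h3 (hS L List.mem_cons_self) (hE L List.mem_cons_self)
    refine ⟨δ ++ π', k1, ?_, ?_⟩
    · intro M hM
      rw [List.mem_cons] at hM
      rcases hM with rfl | hM
      · exact k2
      · exact (g2 M hM).ext δ
    · rw [psize_append, List.length_cons, Nat.add_mul, Nat.one_mul]
      omega

end Pool.Agent.H75.DH
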