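import Mathlib
import Pool.Agent.H75.DH.Trans

set_option autoImplicit false

/-!
Depth hierarchy on CNF formulas: substituting conjunctions of literals for variables.
-/

namespace Pool.Agent.H75.DH

/-- negate all literals of a list, if `s` is false -/
def sgn (s : Bool) (xs : List Lit) : List Lit := if s then xs else xs.map negl

theorem sgn_true (xs : List Lit) : sgn true xs = xs := rfl

theorem sgn_false (xs : List Lit) : sgn false xs = xs.map negl := rfl

theorem length_sgn (s : Bool) (xs : List Lit) : (sgn s xs).length = xs.length := by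
  cases s
  · rw [sgn_false, List.length_map]
  · rfl

theorem map_negl_sgn (s : Bool) (xs : List Lit) : (sgn s xs).map negl = sgn (!s) xs := by
  cases s
  · rw [sgn_false, map_negl_negl]; rfl
  · rfl

theorem map_lit_neg (xs : List Lit) : (xs.map Tm.lit).map Tm.neg = (xs.map negl).map Tm.lit := by
  rw [List.map_map, List.map_map]
  rfl

/-- the formulas for a literal; `b` is true if they are AND formulas that are to be joined by OR -/
def Ul (σ : ℕ → ℕ ⊕ List Lit) (l : Lit) (b : Bool) : List Tm :=
  match σ l.1 with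
  | Sum.inl v => [Tm.lit (v, l.2)]
  | Sum.inr xs => if l.2 = b then [Tm.mk ((sgn l.2 xs).map Tm.lit)] else (sgn l.2 xs).map Tm.lit

/-- the formulas for a tree -/
def U (σ : ℕ → ℕ ⊕ List Lit) : Tm → Bool → List Tm
  | .lit l, b => Ul σ l b
  | .node _ f, b => [Tm.mk (List.ofFn fun i => U σ (f i) (!b)).flatten]

section

variable (σ : ℕ → ℕ ⊕ List Lit)

theorem U_lit (l : Lit) (b : Bool) : U σ (.lit l) b = Ul σ l b := rfl

theorem U_node {n : ℕ} (f : Fin n → Tm) (b : Bool) :
    U σ (.node n f) b = [Tm.mk (List.ofFn fun i => U σ (f i) (!b)).flatten] := rfl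

theorem Ul_inl {w v : ℕ} (h : σ w = Sum.inl v) (s b : Bool) : Ul σ (w, s) b = [Tm.lit (v, s)] := by
  simp only [Ul, h]

theorem Ul_inr {w : ℕ} {xs : List Lit} (h : σ w = Sum.inr xs) (s b : Bool) :
    Ul σ (w, s) b =
      if s = b then [Tm.mk ((sgn s xs).map Tm.lit)] else (sgn s xs).map Tm.lit := by
  simp only [Ul, h]

theorem U_neg (t : Tm) (b : Bool) : U σ t.neg b = (U σ t (!b)).map Tm.neg := by
  induction t generalizing b with
  | lit l =>
    obtain ⟨w, s⟩ := l
    rw [Tm.neg_lit, U_lit, U_lit]
    show Ul σ (w, !s) b = _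
    cases h : σ w with
    | inl v => rw [Ul_inl σ h, Ul_inl σ h]; rfl
    | inr xs =>
      rw [Ul_inr σ h, Ul_inr σ h]
      by_cases hs : s = !b
      · rw [if_pos hs, if_pos (by rw [hs]; simp), List.map_cons, List.map_nil, Tm.neg_mk,
          map_lit_neg, map_negl_sgn]
      · rw [if_neg hs, if_neg (by intro h'; apply hs; rw [← h']; simp), map_lit_neg,
          map_negl_sgn]
  | node n f ih =>
    rw [Tm.neg_node, U_node, U_node, List.map_cons, List.map_nil, Tm.neg_mk, List.map_flatten,
      List.map_ofFn]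
    congr 3
    congr 1
    funext i
    exact ih i _

theorem ht_U (t : Tm) (b : Bool) : ∀ u ∈ U σ t b, u.ht ≤ t.ht + 1 := by
  induction t generalizing b with
  | lit l =>
    obtain ⟨w, s⟩ := l
    intro u hu
    rw [U_lit] at hu
    have aux : ∀ ys : List Lit, ∀ v ∈ ys.map Tm.lit, v.ht ≤ 0 := by
      intro ys v hv
      rw [List.mem_map] at hv
      obtain ⟨l, _, rfl⟩ := hv
      exact le_rfl
    cases h : σ w with
    | inl v =>
      rw [Ul_inl σ h, List.mem_singleton] at hu
      subst hu
      rw [Tm.ht_lit]; omega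
    | inr xs =>
      rw [Ul_inr σ h] at hu
      split at hu
      · rw [List.mem_singleton] at hu
        subst hu
        have := Tm.ht_mk_le (aux (sgn s xs))
        omega
      · have := aux _ u hu
        omega
  | node n f ih =>
    intro u hu
    rw [U_node, List.mem_singleton] at hu
    subst hu
    have : ∀ v ∈ (List.ofFn fun i => U σ (f i) (!b)).flatten, v.ht ≤
        (Finset.univ.sup fun i => (f i).ht) + 1 := by
      intro v hv
      rw [List.mem_flatten] at hv
      obtain ⟨l, hl, hv⟩ := hv
      rw [List.mem_ofFn] at hl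
      obtain ⟨i, rfl⟩ := hl
      have h1 := ih i _ v hv
      have h2 := Finset.le_sup (f := fun i => (f i).ht) (Finset.mem_univ i)
      omega
    have := Tm.ht_mk_le this
    rw [Tm.ht_node]
    omega

theorem lsize_flatten (L : List Line) : lsize L.flatten = (L.map lsize).sum := by
  induction L with
  | nil => rfl
  | cons F L ih => rw [List.flatten_cons, lsize_append, ih, List.map_cons, List.sum_cons]

theorem lsize_U {m : ℕ} (hm : ∀ w l, σ w = Sum.inr l → l.length ≤ m) (t : Tm) (b : Bool) :
    lsize (U σ t b) ≤ (m + 1) * t.size := by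
  induction t generalizing b with
  | lit l =>
    obtain ⟨w, s⟩ := l
    rw [U_lit, Tm.size_lit]
    cases h : σ w with
    | inl v =>
      rw [Ul_inl σ h, lsize_cons, Tm.size_lit, lsize_nil]; omega
    | inr xs =>
      have := hm w xs h
      rw [Ul_inr σ h]
      split
      · rw [lsize_cons, lsize_nil, Tm.size_mk, lsize_lits, length_sgn]; omega
      · rw [lsize_lits, length_sgn]; omega
  | node n f ih =>
    rw [U_node, lsize_cons, lsize_nil, Tm.size_mk, lsize_flatten, List.map_ofFn, List.sum_ofFn,
      Tm.size_node, Nat.mul_add, Finset.mul_sum]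
    have := Finset.sum_le_sum fun i (_ : i ∈ Finset.univ) => ih i (!b)
    simp only [Function.comp]
    omega

/-- translate a line -/
def UL (L : Line) : Line := L.flatMap fun t => U σ t true

theorem UL_append (L M : Line) : UL σ (L ++ M) = UL σ L ++ UL σ M := by
  simp [UL]

theorem UL_cons (t : Tm) (M : Line) : UL σ (t :: M) = U σ t true ++ UL σ M := by
  simp [UL]

theorem UL_nil : UL σ [] = [] := rfl

theorem UL_single (t : Tm) : UL σ [t] = U σ t true := by
  rw [UL_cons, UL_nil, List.append_nil]

theorem mem_UL {t u : Tm} {L : Line} (h : t ∈ L) (hu : u ∈ U σ t true) : u ∈ UL σ L :=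
  List.mem_flatMap.2 ⟨t, h, hu⟩

theorem UL_subset {L M : Line} (h : L ⊆ M) : UL σ L ⊆ UL σ M := by
  intro u hu
  obtain ⟨t, ht, hu⟩ := List.mem_flatMap.1 hu
  exact mem_UL σ (h ht) hu

theorem UL_ofFn {n : ℕ} (f : Fin n → Tm) :
    UL σ (List.ofFn f) = (List.ofFn fun i => U σ (f i) true).flatten := by
  rw [UL, List.flatMap_def, List.map_ofFn]
  rfl

theorem lsize_UL {m : ℕ} (hm : ∀ w l, σ w = Sum.inr l → l.length ≤ m) (L : Line) :
    lsize (UL σ L) ≤ (m + 1) * lsize L := by
  induction L with
  | nil => rw [UL_nil, lsize_nil]; omega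
  | cons t L ih =>
    rw [UL_cons, lsize_append, lsize_cons, Nat.mul_add]
    have := lsize_U σ hm t true
    omega

theorem ht_UL {d : ℕ} {L : Line} (h : ∀ t ∈ L, t.ht < d) :
    ∀ t ∈ UL σ L, t.ht < d + 1 := by
  intro u hu
  obtain ⟨t, ht, hu⟩ := List.mem_flatMap.1 hu
  have h1 := ht_U σ t true u hu
  have h2 := h t ht
  omega

end

/-- The axiom for a conjunction of literals. -/
theorem axStep {F : Fml} {d : ℕ} {X : Line} (hX : ∀ t ∈ X, t.ht < d + 1) (xs : List Lit)
    (h1 : Tm.mk (xs.map Tm.lit) ∈ X) (h2 : ∀ x ∈ xs, Tm.lit (negl x) ∈ X) (π : List Line)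
    (hπ : IsProof F (d + 1) π) :
    ∃ δ, IsProof F (d + 1) (δ ++ π) ∧ Has (δ ++ π) X ∧
      psize δ ≤ (xs.length + 1) * (2 + lsize X) := by
  obtain ⟨δ, g1, g2, g3⟩ := reach_all (F := F) (d := d + 1) (B := 2 + lsize X)
    (xs.map fun x => Tm.lit x :: X) π hπ (by
      intro Y hY δ hδ
      rw [List.mem_map] at hY
      obtain ⟨x, hx, rfl⟩ := hY
      refine ⟨[Tm.lit x :: X], isProof_cons hδ ?_ ?_, Has.head _ _, ?_⟩
      · obtain ⟨v, s⟩ := x
        have := h2 _ hx
        cases s
        · exact Step.ax v (List.mem_cons_of_mem _ this) List.mem_cons_self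
        · exact Step.ax v List.mem_cons_self (List.mem_cons_of_mem _ this)
      · intro t ht
        rw [List.mem_cons] at ht
        rcases ht with rfl | ht
        · rw [Tm.ht_lit]; omega
        · exact hX t ht
      · rw [psize_cons, psize_nil, lsize_cons, Tm.size_lit]; omega)
  rw [List.length_map] at g3
  have hst : Step F (δ ++ π) X := by
    refine Step.and _ _ h1 fun i => ?_
    have hi : (xs.map Tm.lit).get i ∈ xs.map Tm.lit := List.get_mem _ i
    rw [List.mem_map] at hi
    obtain ⟨x, hx, hxi⟩ := hi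
    rw [← hxi, Tm.parts_lit]
    exact g2 _ (List.mem_map_of_mem (f := fun x => Tm.lit x :: X) hx)
  refine ⟨X :: δ, isProof_cons g1 hst hX, Has.head _ _, ?_⟩
  rw [psize_cons, Nat.add_mul, Nat.one_mul]
  omega

/-- One step of the substitution. -/
theorem substStep (σ : ℕ → ℕ ⊕ List Lit) {F F' : Fml} {d m : ℕ}
    (hm : ∀ w l, σ w = Sum.inr l → l.length ≤ m)
    (hF : ∀ C ∈ F', (∃ C₀ ∈ F, C₀ ⊆ UL σ C) ∨
      (∃ l : List Lit, l.length ≤ m ∧ Tm.mk (l.map Tm.lit) ∈ UL σ C ∧
        ∀ x ∈ l, Tm.lit (negl x) ∈ UL σ C) ∨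
      (∃ x : Lit, Tm.lit x ∈ UL σ C ∧ Tm.lit (negl x) ∈ UL σ C))
    {S : ℕ} {π : List Line}
    {π' : List Line} (hπ' : IsProof F (d + 1) π') (hinv : ∀ M ∈ π, Has π' (UL σ M))
    {L : Line} (hL : Step F' π L) (hh : ∀ t ∈ L, t.ht < d) (hSL : 1 + lsize L ≤ S) :
    ∃ δ, IsProof F (d + 1) (δ ++ π') ∧ Has (δ ++ π') (UL σ L) ∧
      psize δ ≤ 5 * ((m + 1) * S) ^ 2 := by
  set X := UL σ L with hXdef
  set Q := (m + 1) * S with hQdef
  have hX : ∀ t ∈ X, t.ht < d + 1 := ht_UL σ hh
  have hXs : 1 + lsize X ≤ Q := by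
    have h1 : lsize X ≤ (m + 1) * lsize L := lsize_UL σ hm L
    have h2 : (m + 1) * (1 + lsize L) ≤ (m + 1) * S := Nat.mul_le_mul_left _ hSL
    rw [Nat.mul_add] at h2
    omega
  have hmQ : m + 1 ≤ Q := by
    have : (m + 1) * 1 ≤ (m + 1) * S := Nat.mul_le_mul_left _ (by omega)
    omega
  have hQ1 : 1 ≤ Q := by omega
  have hQ2 : Q ≤ Q ^ 2 := Nat.le_self_pow (by norm_num) Q
  have hHas : ∀ Y : Line, Has π (Y ++ L) → Has π' (UL σ Y ++ X) := by
    intro Y ⟨M, hM, hMY⟩
    refine (hinv M hM).mono ?_
    rw [hXdef, ← UL_append]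
    exact UL_subset σ hMY
  have one : ∀ {ρ : List Line}, IsProof F (d + 1) ρ → Step F ρ X →
      IsProof F (d + 1) ([X] ++ ρ) ∧ Has ([X] ++ ρ) X ∧ psize [X] ≤ Q := by
    intro ρ h1 h2
    refine ⟨isProof_cons h1 h2 hX, Has.head _ _, ?_⟩
    rw [psize_cons, psize_nil]
    omega
  have axm : ∀ l : List Lit, l.length ≤ m → Tm.mk (l.map Tm.lit) ∈ X →
      (∀ x ∈ l, Tm.lit (negl x) ∈ X) → ∃ δ, IsProof F (d + 1) (δ ++ π') ∧ Has (δ ++ π') X ∧
        psize δ ≤ 5 * Q ^ 2 := by
    intro l hl h1 h2
    obtain ⟨δ, g1, g2, g3⟩ := axStep (F := F) hX l h1 h2 π' hπ'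
    refine ⟨δ, g1, g2, g3.trans ?_⟩
    calc (l.length + 1) * (2 + lsize X) ≤ Q * (2 * Q) := Nat.mul_le_mul (by omega) (by omega)
      _ = 2 * Q ^ 2 := by ring
      _ ≤ 5 * Q ^ 2 := by omega
  cases hL with
  | ax w h1 h2 =>
    cases hσ : σ w with
    | inl v =>
      obtain ⟨g1, g2, g3⟩ := one hπ' (Step.ax v
        (mem_UL σ h1 (by rw [U_lit, Ul_inl σ hσ]; exact List.mem_singleton.2 rfl))
        (mem_UL σ h2 (by rw [U_lit, Ul_inl σ hσ]; exact List.mem_singleton.2 rfl)))
      exact ⟨[X], g1, g2, by omega⟩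
    | inr l =>
      refine axm l (hm w l hσ) (mem_UL σ h1 ?_) fun x hx => mem_UL σ h2 ?_
      · rw [U_lit, Ul_inr σ hσ, if_pos rfl]; exact List.mem_singleton.2 rfl
      · rw [U_lit, Ul_inr σ hσ, if_neg (by simp), sgn_false]
        exact List.mem_map_of_mem (List.mem_map_of_mem hx)
  | hyp C hC h =>
    have hCX : UL σ C ⊆ X := UL_subset σ h
    rcases hF C hC with ⟨C₀, hC₀, hCe⟩ | ⟨l, hl, h1, h2⟩ | ⟨x, h1, h2⟩
    · obtain ⟨g1, g2, g3⟩ := one hπ' (Step.hyp C₀ hC₀ (List.Subset.trans hCe hCX))
      exact ⟨[X], g1, g2, by omega⟩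
    · exact axm l hl (hCX h1) fun x hx => hCX (h2 x hx)
    · have hst : Step F π' X := by
        obtain ⟨v, s⟩ := x
        cases s
        · exact Step.ax v (hCX h2) (hCX h1)
        · exact Step.ax v (hCX h1) (hCX h2)
      obtain ⟨g1, g2, g3⟩ := one hπ' hst
      exact ⟨[X], g1, g2, by omega⟩
  | and n f h h' =>
    set K : List Tm := (List.ofFn fun i => U σ (f i) (!true)).flatten with hK
    have hKX : Tm.mk K ∈ X := mem_UL σ h (by rw [U_node]; exact List.mem_singleton.2 rfl)
    have hKlen : K.length + 1 ≤ Q := by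
      have h1 := size_le_lsize hKX
      have h2 := Tm.n_lt_size K.length K.get
      rw [Tm.mk] at h1
      omega
    obtain ⟨δ, g1, g2, g3⟩ := reach_all (F := F) (d := d + 1) (B := 4 * Q)
      (K.map fun k => k.parts ++ X) π' hπ' (by
        intro Y hY δ hδ
        rw [List.mem_map] at hY
        obtain ⟨k, hk, rfl⟩ := hY
        rw [hK, List.mem_flatten] at hk
        obtain ⟨l, hl, hk⟩ := hk
        rw [List.mem_ofFn] at hl
        obtain ⟨i, rfl⟩ := hl
        have hi := (hHas _ (h' i)).ext δ
        cases hfi : f i with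
        | lit x =>
          obtain ⟨w, s⟩ := x
          rw [hfi] at hi hk
          rw [Tm.parts_lit, UL_single, U_lit] at hi
          rw [U_lit] at hk
          cases hσ : σ w with
          | inl v =>
            rw [Ul_inl σ hσ] at hi hk
            rw [List.mem_singleton] at hk
            subst hk
            exact ⟨[], hδ, hi, by simp [psize]⟩
          | inr l =>
            rw [Ul_inr σ hσ] at hi hk
            cases s
            · rw [if_pos (by simp), List.mem_singleton] at hk
              rw [if_neg (by simp)] at hi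
              subst hk
              rw [Tm.parts_mk]
              exact ⟨[], hδ, hi, by simp [psize]⟩
            · rw [if_neg (by simp), sgn_true] at hk
              rw [if_pos (by simp), sgn_true] at hi
              rw [List.mem_map] at hk
              obtain ⟨x, hx, rfl⟩ := hk
              rw [Tm.parts_lit]
              have hxX : ∀ t ∈ Tm.lit x :: X, t.ht < d + 1 := by
                intro t ht
                rw [List.mem_cons] at ht
                rcases ht with rfl | ht
                · rw [Tm.ht_lit]; omega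
                · exact hX t ht
              set A : Line := (l.map negl).map Tm.lit ++ Tm.lit x :: X with hA
              have hAx : Tm.lit x ∈ A := List.mem_append_right _ List.mem_cons_self
              have hAn : Tm.lit (negl x) ∈ A :=
                List.mem_append_left _ (List.mem_map_of_mem (List.mem_map_of_mem hx))
              have hAs : Step F (δ ++ π') A := by
                obtain ⟨v, s⟩ := x
                cases s
                · exact Step.ax v hAn hAx
                · exact Step.ax v hAx hAn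
              have hAh : ∀ t ∈ A, t.ht < d + 1 := by
                intro t ht
                rw [hA, List.mem_append] at ht
                rcases ht with ht | ht
                · rw [List.mem_map] at ht
                  obtain ⟨y, _, rfl⟩ := ht
                  rw [Tm.ht_lit]; omega
                · exact hxX t ht
              have hp1 := isProof_cons hδ hAs hAh
              have hs2 : Step F (A :: (δ ++ π')) (Tm.lit x :: X) := by
                refine Step.cut (Tm.mk (l.map Tm.lit)) ((hi.mono ?_).cons A) ?_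
                · intro t ht
                  rw [List.mem_append, List.mem_singleton] at ht
                  rcases ht with rfl | ht
                  · exact List.mem_cons_self
                  · exact List.mem_cons_of_mem _ (List.mem_cons_of_mem _ ht)
                · rw [Tm.parts_neg_mk, map_lit_neg]
                  exact Has.head _ _
              refine ⟨[Tm.lit x :: X, A], isProof_cons hp1 hs2 hxX, Has.head _ _, ?_⟩
              have hlm := hm w l hσ
              rw [psize_cons, psize_cons, psize_nil, hA, lsize_append, lsize_lits,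
                List.length_map, lsize_cons, Tm.size_lit]
              omega
        | node m' g =>
          rw [hfi] at hi hk
          rw [U_node, List.mem_singleton] at hk
          subst hk
          rw [Tm.parts_mk]
          rw [Tm.parts_node, UL_ofFn] at hi
          exact ⟨[], hδ, hi, by simp [psize]⟩)
    rw [List.length_map] at g3
    have hst : Step F (δ ++ π') X := by
      refine Step.and _ _ hKX fun i => ?_
      have hi : K.get i ∈ K := List.get_mem _ i
      exact g2 _ (List.mem_map_of_mem (f := fun k => k.parts ++ X) hi)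
    obtain ⟨k1, k2, k3⟩ := one g1 hst
    refine ⟨[X] ++ δ, by rw [List.append_assoc]; exact k1, by rw [List.append_assoc]; exact k2,
      ?_⟩
    rw [psize_append]
    have a1 : K.length * (4 * Q) ≤ Q * (4 * Q) := Nat.mul_le_mul_right _ (by omega)
    have a2 : Q * (4 * Q) = 4 * Q ^ 2 := by ring
    omega
  | cut t h1 h2 =>
    have hH1 := hHas [t] h1
    have hH2 := hHas _ h2
    rw [UL_single] at hH1
    cases t with
    | lit x =>
      obtain ⟨w, s⟩ := x
      rw [Tm.neg_lit, Tm.parts_lit, UL_single, U_lit] at hH2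
      rw [U_lit] at hH1
      have hH2' : Has π' (Ul σ (w, !s) true ++ X) := hH2
      cases hσ : σ w with
      | inl v =>
        rw [Ul_inl σ hσ] at hH1 hH2'
        obtain ⟨g1, g2, g3⟩ := one hπ' (Step.cut (Tm.lit (v, s)) hH1 hH2')
        exact ⟨[X], g1, g2, by omega⟩
      | inr l =>
        rw [Ul_inr σ hσ] at hH1 hH2'
        have hst : Step F π' X := by
          refine Step.cut (Tm.mk (l.map Tm.lit)) ?_ ?_
          · cases s
            · rw [if_pos (by simp)] at hH2'; exact hH2'
            · rw [if_pos (by simp)] at hH1; exact hH1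
          · rw [Tm.parts_neg_mk, map_lit_neg]
            cases s
            · rw [if_neg (by simp)] at hH1; exact hH1
            · rw [if_neg (by simp)] at hH2'; exact hH2'
        obtain ⟨g1, g2, g3⟩ := one hπ' hst
        exact ⟨[X], g1, g2, by omega⟩
    | node n f =>
      rw [U_node] at hH1
      have e : UL σ (Tm.node n f).neg.parts =
          (Tm.mk (List.ofFn fun i => U σ (f i) (!true)).flatten).neg.parts := by
        rw [Tm.parts_neg_mk, Tm.neg_node, Tm.parts_node, UL_ofFn, List.map_flatten,
          List.map_ofFn]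
        congr 2
        funext i
        exact U_neg σ (f i) true
      rw [e] at hH2
      obtain ⟨g1, g2, g3⟩ := one hπ' (Step.cut _ hH1 hH2)
      exact ⟨[X], g1, g2, by omega⟩

/-- Substituting conjunctions for variables in a depth `d` proof gives a depth `d + 1` proof. -/
theorem subst (σ : ℕ → ℕ ⊕ List Lit) {F F' : Fml} {d m : ℕ}
    (hm : ∀ w l, σ w = Sum.inr l → l.length ≤ m)
    (hF : ∀ C ∈ F', (∃ C₀ ∈ F, C₀ ⊆ UL σ C) ∨
      (∃ l : List Lit, l.length ≤ m ∧ Tm.mk (l.map Tm.lit) ∈ UL σ C ∧
        ∀ x ∈ l, Tm.lit (negl x) ∈ UL σ C) ∨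
      (∃ x : Lit, Tm.lit x ∈ UL σ C ∧ Tm.lit (negl x) ∈ UL σ C))
    {S : ℕ} : ∀ π : List Line, IsProof F' d π → (∀ M ∈ π, 1 + lsize M ≤ S) →
    ∃ π', IsProof F (d + 1) π' ∧ (∀ M ∈ π, Has π' (UL σ M)) ∧
      psize π' ≤ π.length * (5 * ((m + 1) * S) ^ 2) := by
  intro π
  induction π with
  | nil => intro _ _; exact ⟨[], trivial, by simp, by simp [psize]⟩
  | cons L π ih =>
    intro h hS
    obtain ⟨h1, h2, h3⟩ := h
    obtain ⟨π', g1, g2, g3⟩ := ih h1 (fun M hM => hS M (List.mem_cons_of_mem _ hM))
    obtain ⟨δ, k1, k2, k3⟩ := substStep σ hm hF g1 g2 h2 h3 (hS L List.mem_cons_self)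
    refine ⟨δ ++ π', k1, ?_, ?_⟩
    · intro M hM
      rw [List.mem_cons] at hM
      rcases hM with rfl | hM
      · exact k2
      · exact (g2 M hM).ext δ
    · rw [psize_append, List.length_cons, Nat.add_mul, Nat.one_mul]
      omega

end Pool.Agent.H75.DH
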