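import Mathlib
import Pool.Agent.H75.DH.Subst

set_option autoImplicit false

/-!
Depth hierarchy: defining the extension variables by clauses with at most three literals.
-/

namespace Pool.Agent.H75.DH

theorem Has.trans {π ρ : List Line} {X : Line} (h : Has π X) (hπ : ∀ M ∈ π, Has ρ M) :
    Has ρ X := by
  obtain ⟨M, hM, hMX⟩ := h
  exact (hπ M hM).mono hMX

/-- Lines that can be derived may be used as hypotheses. -/
theorem lift {F' G : Fml} {e : ℕ} (he : 1 ≤ e) {π₀ : List Line} (h0 : IsProof G e π₀)
    (hF : ∀ C ∈ F', Has π₀ C ∨ ∃ z : ℕ, ∃ C' ∈ G, C' ⊆ Tm.lit (z, false) :: C ∧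
      Has π₀ (Tm.lit (z, true) :: C)) :
    ∀ π : List Line, IsProof F' e π → ∃ ρ, IsProof G e (ρ ++ π₀) ∧
      (∀ M ∈ π, Has (ρ ++ π₀) M) ∧ psize ρ ≤ 3 * psize π := by
  intro π
  induction π with
  | nil => intro _; exact ⟨[], h0, by simp, by simp [psize]⟩
  | cons L π ih =>
    intro h
    obtain ⟨h1, h2, h3⟩ := h
    obtain ⟨ρ, g1, g2, g3⟩ := ih h1
    have one : Step G (ρ ++ π₀) L → ∃ ρ, IsProof G e (ρ ++ π₀) ∧
        (∀ M ∈ L :: π, Has (ρ ++ π₀) M) ∧ psize ρ ≤ 3 * psize (L :: π) := by
      intro hs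
      refine ⟨L :: ρ, isProof_cons g1 hs h3, ?_, ?_⟩
      · intro M hM
        rw [List.mem_cons] at hM
        rcases hM with rfl | hM
        · exact Has.head _ _
        · exact (g2 M hM).cons _
      · rw [psize_cons, psize_cons]; omega
    cases h2 with
    | ax v a b => exact one (Step.ax v a b)
    | hyp C hC h =>
      rcases hF C hC with hH | ⟨z, C', hC', hs, hH⟩
      · have hH' : Has (ρ ++ π₀) L := (hH.mono h).ext ρ
        exact one (Step.cut (Tm.lit (0, true)) (hH'.mono (List.subset_cons_self _ _))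
          (hH'.mono (List.subset_append_right _ _)))
      · have hA : IsProof G e ((Tm.lit (z, false) :: L) :: (ρ ++ π₀)) := by
          refine isProof_cons g1 (Step.hyp C' hC' ?_) ?_
          · exact List.Subset.trans hs (List.cons_subset_cons _ h)
          · intro t ht
            rw [List.mem_cons] at ht
            rcases ht with rfl | ht
            · rw [Tm.ht_lit]; omega
            · exact h3 t ht
        refine ⟨L :: (Tm.lit (z, false) :: L) :: ρ, isProof_cons hA (Step.cut (Tm.lit (z, true))
          (((hH.mono (List.cons_subset_cons _ h)).ext ρ).cons _) (Has.head _ _)) h3, ?_, ?_⟩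
        · intro M hM
          rw [List.mem_cons] at hM
          rcases hM with rfl | hM
          · exact Has.head _ _
          · exact ((g2 M hM).cons _).cons _
        · rw [psize_cons, psize_cons, psize_cons, lsize_cons, Tm.size_lit]
          omega
    | and n f a b => exact one (Step.and n f a fun i => (b i).trans g2)
    | cut t a b => exact one (Step.cut t (a.trans g2) (b.trans g2))

section

variable (eV : ℕ → ℕ) (eZ : List Lit → ℕ)

/-- the clause `z` or not all of `l` -/
def ext1 (l : List Lit) : Line := Tm.lit (eZ l, true) :: ((l.map (ren eV)).map negl).map Tm.lit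

/-- the clause not `z` or `x` -/
def ext2 (l : List Lit) (x : Lit) : Line := [Tm.lit (eZ l, false), Tm.lit (ren eV x)]

/-- the defining clauses -/
def dfn : List Lit → Fml
  | [] => [[Tm.lit (eZ [], true)]]
  | x :: l => [[Tm.lit (eZ (x :: l), true), Tm.lit (negl (ren eV x)), Tm.lit (eZ l, false)],
      [Tm.lit (eZ (x :: l), false), Tm.lit (ren eV x)],
      [Tm.lit (eZ (x :: l), false), Tm.lit (eZ l, true)]]

theorem dfn_three (l : List Lit) : ∀ C ∈ dfn eV eZ l, (∀ t ∈ C, t.ht = 0) ∧ C.length ≤ 3 := by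
  intro C hC
  cases l with
  | nil =>
    simp only [dfn, List.mem_singleton] at hC
    subst hC
    simp
  | cons x l =>
    simp only [dfn, List.mem_cons, List.not_mem_nil, or_false] at hC
    rcases hC with rfl | rfl | rfl <;> simp

theorem psize_dfn (l : List Lit) : psize (dfn eV eZ l) ≤ 10 := by
  cases l with
  | nil => simp [dfn, psize]
  | cons x l => simp [dfn, psize]

end

theorem hyp_line {G : Fml} {e : ℕ} {C : Line} (hC : C ∈ G) (hh : ∀ t ∈ C, t.ht < e)
    {ρ : List Line} (hρ : IsProof G e ρ) : IsProof G e (C :: ρ) :=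
  isProof_cons hρ (Step.hyp C hC (List.Subset.refl C)) hh

theorem cut_line {G : Fml} {e : ℕ} {C : Line} (hh : ∀ t ∈ C, t.ht < e) (z : ℕ) {ρ : List Line}
    (hρ : IsProof G e ρ) (h1 : Has ρ (Tm.lit (z, true) :: C))
    (h2 : Has ρ (Tm.lit (z, false) :: C)) : IsProof G e (C :: ρ) :=
  isProof_cons hρ (Step.cut (Tm.lit (z, true)) h1 h2) hh

/-- The extension axioms follow from the defining clauses. -/
theorem unfold_ext (eV : ℕ → ℕ) (eZ : List Lit → ℕ) {G : Fml} {e : ℕ} (he : 1 ≤ e) :
    ∀ (l : List Lit), (∀ l' ∈ l.tails, ∀ C ∈ dfn eV eZ l', C ∈ G) → ∀ ρ, IsProof G e ρ →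
      ∃ δ, IsProof G e (δ ++ ρ) ∧ Has (δ ++ ρ) (ext1 eV eZ l) ∧
        (∀ x ∈ l, Has (δ ++ ρ) (ext2 eV eZ l x)) ∧
        psize δ ≤ (1 + l.length) * (4 * l.length + 9) := by
  intro l
  induction l with
  | nil =>
    intro h ρ hρ
    refine ⟨[[Tm.lit (eZ [], true)]], ?_, ?_, by simp, ?_⟩
    · refine hyp_line (h [] (by simp) _ (by simp [dfn])) ?_ hρ
      intro t ht
      rw [List.mem_singleton] at ht
      subst ht
      rw [Tm.ht_lit]; omega
    · exact Has.head _ _
    · simp [psize]
  | cons y l ih =>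
    intro h ρ hρ
    obtain ⟨δ, g1, g2, g3, g4⟩ := ih (fun l' hl' => h l' (by
      rw [List.mem_tails] at hl' ⊢
      exact hl'.trans (List.suffix_cons y l))) ρ hρ
    have hd := h (y :: l) ((List.mem_tails _ _).2 (List.suffix_refl _))
    have h3 := dfn_three eV eZ (y :: l)
    set A : Line := [Tm.lit (eZ (y :: l), true), Tm.lit (negl (ren eV y)), Tm.lit (eZ l, false)]
      with hA
    set B : Line := [Tm.lit (eZ (y :: l), false), Tm.lit (ren eV y)] with hB
    set C : Line := [Tm.lit (eZ (y :: l), false), Tm.lit (eZ l, true)] with hC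
    have mA : A ∈ dfn eV eZ (y :: l) := by simp [dfn, hA]
    have mB : B ∈ dfn eV eZ (y :: l) := by simp [dfn, hB]
    have mC : C ∈ dfn eV eZ (y :: l) := by simp [dfn, hC]
    have pA := hyp_line (hd A mA) (fun t ht => by rw [(h3 A mA).1 t ht]; omega) g1
    have pB := hyp_line (hd B mB) (fun t ht => by rw [(h3 B mB).1 t ht]; omega) pA
    have pC := hyp_line (hd C mC) (fun t ht => by rw [(h3 C mC).1 t ht]; omega) pB
    have hD1 : Has (C :: B :: A :: (δ ++ ρ))
        (Tm.lit (eZ l, true) :: (ext1 eV eZ (y :: l))) := by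
      refine (((g2.mono ?_).cons _).cons _).cons _
      intro t ht
      simp only [ext1, List.map_cons, List.mem_cons] at ht ⊢
      tauto
    have hD2 : Has (C :: B :: A :: (δ ++ ρ))
        (Tm.lit (eZ l, false) :: (ext1 eV eZ (y :: l))) := by
      refine (((Has.head A (δ ++ ρ)).mono ?_).cons _).cons _
      intro t ht
      simp only [hA, ext1, List.map_cons, List.mem_cons, List.not_mem_nil, or_false] at ht ⊢
      tauto
    have hlits : ∀ ys : List Lit, ∀ t ∈ ys.map Tm.lit, t.ht < e := by
      intro ys t ht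
      rw [List.mem_map] at ht
      obtain ⟨x, _, rfl⟩ := ht
      rw [Tm.ht_lit]; omega
    have pD := cut_line (C := ext1 eV eZ (y :: l)) (hlits ((eZ (y :: l), true) ::
      ((y :: l).map (ren eV)).map negl)) (eZ l) pC hD1 hD2
    set ρ' : List Line := ext1 eV eZ (y :: l) :: C :: B :: A :: (δ ++ ρ) with hρ'
    obtain ⟨δ', k1, k2, k3⟩ := reach_all (F := G) (d := e) (B := 3)
      (l.map fun x => ext2 eV eZ (y :: l) x) ρ' pD (by
        intro X hX τ hτ
        rw [List.mem_map] at hX
        obtain ⟨x, hx, rfl⟩ := hX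
        refine ⟨[ext2 eV eZ (y :: l) x], ?_, Has.head _ _, ?_⟩
        · refine cut_line (C := ext2 eV eZ (y :: l) x) (hlits [(eZ (y :: l), false), ren eV x])
            (eZ l) hτ (Has.ext ?_ τ) (Has.ext ?_ τ)
          · refine ((Has.head C _).mono ?_).cons _
            intro t ht
            simp only [hC, ext2, List.mem_cons, List.not_mem_nil, or_false] at ht ⊢
            tauto
          · refine (((((g3 x hx).mono ?_).cons _).cons _).cons _).cons _
            intro t ht
            simp only [ext2, List.mem_cons, List.not_mem_nil, or_false] at ht ⊢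
            tauto
        · simp [psize, ext2])
    refine ⟨δ' ++ [ext1 eV eZ (y :: l), C, B, A] ++ δ, ?_, ?_, ?_, ?_⟩
    · simpa [hρ'] using k1
    · have : Has (δ' ++ ρ') (ext1 eV eZ (y :: l)) := (Has.head _ _).ext δ'
      simpa [hρ'] using this
    · intro x hx
      rw [List.mem_cons] at hx
      have : Has (δ' ++ ρ') (ext2 eV eZ (y :: l) x) := by
        rcases hx with rfl | hx
        · exact (((Has.head B _).cons _).cons _).ext δ'
        · exact k2 _ (List.mem_map_of_mem (f := fun x => ext2 eV eZ (y :: l) x) hx)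
      simpa [hρ'] using this
    · rw [List.length_map] at k3
      rw [psize_append, psize_append, psize_cons, psize_cons, psize_cons, psize_cons, psize_nil]
      have a0 : (y :: l).length = l.length + 1 := List.length_cons
      rw [a0]
      have a1 : lsize (ext1 eV eZ (y :: l)) = l.length + 2 := by
        have := lsize_lits ((eZ (y :: l), true) :: ((y :: l).map (ren eV)).map negl)
        rw [List.length_cons, List.length_map, List.length_map, a0] at this
        exact this
      have a2 : lsize A = 3 := by simp [hA, lsize]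
      have a3 : lsize B = 2 := by simp [hB, lsize]
      have a4 : lsize C = 2 := by simp [hC, lsize]
      have a5 : (1 + (l.length + 1)) * (4 * (l.length + 1) + 9) =
          (1 + l.length) * (4 * l.length + 9) + (8 * l.length + 17) := by ring
      omega

/-- All extension axioms. -/
theorem unfold_all (eV : ℕ → ℕ) (eZ : List Lit → ℕ) {G : Fml} {e : ℕ} (he : 1 ≤ e) :
    ∀ (Ls : List (List Lit)), (∀ l ∈ Ls, ∀ l' ∈ l.tails, ∀ C ∈ dfn eV eZ l', C ∈ G) →
      ∀ ρ, IsProof G e ρ →
      ∃ δ, IsProof G e (δ ++ ρ) ∧ (∀ l ∈ Ls, Has (δ ++ ρ) (ext1 eV eZ l) ∧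
        ∀ x ∈ l, Has (δ ++ ρ) (ext2 eV eZ l x)) ∧
        psize δ ≤ 9 * (csize Ls) ^ 2 := by
  intro Ls
  induction Ls with
  | nil => intro _ ρ hρ; exact ⟨[], hρ, by simp, by simp [psize]⟩
  | cons l Ls ih =>
    intro h ρ hρ
    obtain ⟨δ, g1, g2, g3⟩ := ih (fun l' hl' => h l' (List.mem_cons_of_mem _ hl')) ρ hρ
    obtain ⟨δ', k1, k2, k3, k4⟩ := unfold_ext eV eZ he l (h l List.mem_cons_self) _ g1
    refine ⟨δ' ++ δ, by rw [List.append_assoc]; exact k1, ?_, ?_⟩
    · intro l' hl'
      rw [List.append_assoc]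
      rw [List.mem_cons] at hl'
      rcases hl' with rfl | hl'
      · exact ⟨k2, k3⟩
      · exact ⟨((g2 l' hl').1).ext δ', fun x hx => ((g2 l' hl').2 x hx).ext δ'⟩
    · rw [psize_append, csize_cons]
      have a : 9 * (1 + l.length + csize Ls) ^ 2 =
        (1 + l.length) * (9 * l.length + 9) + 9 * (csize Ls) ^ 2 +
          18 * ((1 + l.length) * csize Ls) := by ring
      have b : (1 + l.length) * (4 * l.length + 9) ≤ (1 + l.length) * (9 * l.length + 9) :=
        Nat.mul_le_mul_left _ (by omega)
      omega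

/-- the trees of a line which are not literals -/
def nonlits (L : Line) : Line := L.filter fun t => !t.isLit

theorem mem_nonlits {L : Line} {t : Tm} : t ∈ nonlits L ↔ t ∈ L ∧ t.isLit = false := by
  rw [nonlits, List.mem_filter]
  simp

theorem mem_lits {L : Line} {x : Lit} : x ∈ lits L ↔ Tm.lit x ∈ L := by
  rw [lits, List.mem_filterMap]
  constructor
  · rintro ⟨t, ht, h⟩
    cases t with
    | lit l =>
      simp only [Tm.toLit, Option.some.injEq] at h
      rwa [h] at ht
    | node n f => simp [Tm.toLit] at h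
  · intro h
    exact ⟨_, h, rfl⟩

theorem lsize_nonlits (L : Line) : lsize (nonlits L) ≤ lsize L := by
  induction L with
  | nil => exact le_rfl
  | cons t L ih =>
    rw [nonlits, List.filter_cons]
    rw [nonlits] at ih
    split
    · rw [lsize_cons, lsize_cons]; omega
    · rw [lsize_cons]; omega

/-- the negated literals of a line -/
def nl (L : Line) : List Lit := (lits L).map negl

/-- the line with its literals replaced by one variable -/
def hline (eV : ℕ → ℕ) (eZ : List Lit → ℕ) (L : Line) : Line :=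
  Tm.lit (eZ (nl L), false) :: TL eV eZ (nonlits L)

/-- all lists -/
def allZ (E : List (List Lit)) (F : Fml) : List (List Lit) := (E ++ F.map nl).flatMap List.tails

/-- The new formula. -/
def three (eV : ℕ → ℕ) (eZ : List Lit → ℕ) (F : Fml) (E : List (List Lit)) : Fml :=
  F.map (hline eV eZ) ++ (allZ E F).flatMap (dfn eV eZ)

theorem depth_three (eV : ℕ → ℕ) (eZ : List Lit → ℕ) {F : Fml} (E : List (List Lit)) {k : ℕ}
    (hk : 2 ≤ k) (hF : DepthLE (k + 1) F) : DepthLE k (three eV eZ F E) := by
  intro L hL t ht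
  rw [three, List.mem_append] at hL
  rcases hL with hL | hL
  · rw [List.mem_map] at hL
    obtain ⟨C, hC, rfl⟩ := hL
    rw [hline, List.mem_cons] at ht
    rcases ht with rfl | ht
    · rw [Tm.ht_lit]; exact hk
    · rw [TL, List.mem_map] at ht
      obtain ⟨u, hu, rfl⟩ := ht
      have h1 := ht_T eV eZ u true
      have h2 := hF C hC u (mem_nonlits.1 hu).1
      omega
  · obtain ⟨l, _, hl⟩ := List.mem_flatMap.1 hL
    rw [(dfn_three eV eZ l L hl).1 t ht]
    exact hk

theorem three_three (eV : ℕ → ℕ) (eZ : List Lit → ℕ) {F : Fml} (E : List (List Lit))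
    (hF : DepthLE 2 F) : ThreeCnf (three eV eZ F E) := by
  have h0 : ∀ C ∈ F, nonlits C = [] := by
    intro C hC
    rw [List.eq_nil_iff_forall_not_mem]
    intro t ht
    obtain ⟨h1, h2⟩ := mem_nonlits.1 ht
    have h3 := hF C hC t h1
    cases t with
    | lit l => simp [Tm.isLit] at h2
    | node n f => rw [Tm.ht_node] at h3; omega
  constructor
  · exact depth_three eV eZ E le_rfl fun L hL t ht => (hF L hL t ht).trans (by omega)
  · intro L hL
    rw [three, List.mem_append] at hL
    rcases hL with hL | hL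
    · rw [List.mem_map] at hL
      obtain ⟨C, hC, rfl⟩ := hL
      rw [hline, h0 C hC]
      simp [TL]
    · obtain ⟨l, _, hl⟩ := List.mem_flatMap.1 hL
      exact (dfn_three eV eZ l L hl).2

theorem psize_flatMap_dfn (eV : ℕ → ℕ) (eZ : List Lit → ℕ) (L : List (List Lit)) :
    psize (L.flatMap (dfn eV eZ)) ≤ 10 * L.length := by
  induction L with
  | nil => simp [psize]
  | cons l L ih =>
    rw [List.flatMap_cons, psize_append, List.length_cons]
    have := psize_dfn eV eZ l
    omega

theorem length_flatMap_tails (L : List (List Lit)) :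
    (L.flatMap List.tails).length = csize L := by
  induction L with
  | nil => rfl
  | cons l L ih =>
    rw [List.flatMap_cons, List.length_append, ih, csize_cons, List.length_tails]
    omega

theorem length_lits_le_lsize (L : Line) : (lits L).length ≤ lsize L := by
  induction L with
  | nil => exact le_rfl
  | cons t L ih =>
    rw [lits] at ih ⊢
    rw [lsize_cons]
    cases t with
    | lit l =>
      rw [List.filterMap_cons_some (f := Tm.toLit) (b := l) rfl, List.length_cons, Tm.size_lit]
      omega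
    | node n f =>
      rw [List.filterMap_cons_none (f := Tm.toLit) rfl]
      omega

theorem csize_nl (F : Fml) : csize (F.map nl) ≤ psize F := by
  induction F with
  | nil => exact le_rfl
  | cons C F ih =>
    rw [List.map_cons, csize_cons, psize_cons, nl, List.length_map]
    have := length_lits_le_lsize C
    omega

theorem psize_hlines (eV : ℕ → ℕ) (eZ : List Lit → ℕ) (F : Fml) :
    psize (F.map (hline eV eZ)) ≤ 2 * psize F := by
  induction F with
  | nil => simp [psize]
  | cons C F ih =>
    rw [List.map_cons, psize_cons, psize_cons, hline, lsize_cons, Tm.size_lit]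
    have h1 := lsize_TL eV eZ (nonlits C)
    have h2 := lsize_nonlits C
    omega

theorem psize_three (eV : ℕ → ℕ) (eZ : List Lit → ℕ) (F : Fml) (E : List (List Lit)) :
    psize (three eV eZ F E) ≤ 12 * (csize E + psize F) := by
  rw [three, psize_append]
  have h1 := psize_hlines eV eZ F
  have h2 := psize_flatMap_dfn eV eZ (allZ E F)
  have h3 := csize_nl F
  rw [allZ, length_flatMap_tails, csize_append] at h2
  rw [allZ]
  omega

theorem mem_le_csize {F : List (List Lit)} {C : List Lit} (h : C ∈ F) : 1 + C.length ≤ csize F :=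
  List.le_sum_of_mem (List.mem_map_of_mem (f := fun C : List Lit => 1 + C.length) h)

theorem self_mem_allZ {E : List (List Lit)} {F : Fml} {l : List Lit} (h : l ∈ E ++ F.map nl) :
    l ∈ allZ E F :=
  List.mem_flatMap.2 ⟨l, h, (List.mem_tails _ _).2 (List.suffix_refl _)⟩

theorem length_le_of_allZ {E : List (List Lit)} {F : Fml} {l : List Lit} (h : l ∈ allZ E F) :
    1 + l.length ≤ csize E + psize F := by
  obtain ⟨l₀, hl₀, hl⟩ := List.mem_flatMap.1 h
  rw [List.mem_tails] at hl
  have h1 := hl.length_le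
  have h2 := mem_le_csize hl₀
  rw [csize_append] at h2
  have h3 := csize_nl F
  omega

/-- The extension axioms and the first clauses for the lines follow from the new formula. -/
theorem three_derives (eV : ℕ → ℕ) (eZ : List Lit → ℕ) (F : Fml) (E : List (List Lit)) {e : ℕ}
    (he : 1 ≤ e) :
    ∃ π₀, IsProof (three eV eZ F E) e π₀ ∧
      (∀ l ∈ E ++ F.map nl, Has π₀ (ext1 eV eZ l) ∧ ∀ x ∈ l, Has π₀ (ext2 eV eZ l x)) ∧
      psize π₀ ≤ 9 * (csize E + psize F) ^ 2 := by
  obtain ⟨δ, g1, g2, g3⟩ := unfold_all eV eZ (G := three eV eZ F E) he (E ++ F.map nl) (by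
      intro l hl l' hl' C hC
      rw [three, List.mem_append]
      exact Or.inr (List.mem_flatMap.2 ⟨l', List.mem_flatMap.2 ⟨l, hl, hl'⟩, hC⟩)) [] trivial
  rw [List.append_nil] at g1 g2
  refine ⟨δ, g1, g2, g3.trans ?_⟩
  have h3 := csize_nl F
  rw [csize_append]
  exact Nat.mul_le_mul_left 9 (Nat.pow_le_pow_left (by omega) 2)

/-- The hypotheses of `lift` for the translated lines. -/
theorem hline_lift (eV : ℕ → ℕ) (eZ : List Lit → ℕ) {F : Fml} {E : List (List Lit)}
    {π₀ : List Line} (h : ∀ l ∈ E ++ F.map nl, Has π₀ (ext1 eV eZ l)) {C : Line} (hC : C ∈ F) :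
    ∃ z : ℕ, ∃ C' ∈ three eV eZ F E, C' ⊆ Tm.lit (z, false) :: TL eV eZ C ∧
      Has π₀ (Tm.lit (z, true) :: TL eV eZ C) := by
  refine ⟨eZ (nl C), hline eV eZ C, List.mem_append_left _ (List.mem_map_of_mem hC), ?_, ?_⟩
  · rw [hline]
    exact List.cons_subset_cons _ (TL_subset eV eZ fun t ht => (mem_nonlits.1 ht).1)
  · refine (h (nl C) (List.mem_append_right _ (List.mem_map_of_mem hC))).mono ?_
    rw [ext1]
    refine List.cons_subset_cons _ ?_
    intro t ht
    rw [List.mem_map] at ht
    obtain ⟨x, hx, rfl⟩ := ht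
    rw [List.mem_map] at hx
    obtain ⟨y, hy, rfl⟩ := hx
    rw [List.mem_map] at hy
    obtain ⟨w, hw, rfl⟩ := hy
    rw [nl, List.mem_map] at hw
    obtain ⟨u, hu, rfl⟩ := hw
    rw [ren_negl, negl_negl]
    exact mem_TL eV eZ (mem_lits.1 hu)

/-- The substitution is a left inverse of the translation. -/
theorem U_T (eV : ℕ → ℕ) (eZ : List Lit → ℕ) (σ : ℕ → ℕ ⊕ List Lit)
    (h1 : ∀ v, σ (eV v) = Sum.inl v) (t : Tm) (b : Bool)
    (h2 : ∀ l ∈ zs t b, σ (eZ l) = Sum.inr l) : U σ (T eV eZ t b) b = [t] := by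
  induction t generalizing b with
  | lit l =>
    rw [T_lit, U_lit]
    exact Ul_inl σ (h1 l.1) l.2 b
  | node n f ih =>
    by_cases h : ∀ i, (f i).isLit = true
    · rw [T_flat eV eZ h, U_lit, Ul_inr σ (h2 _ (by
        rw [zs_flat h]; exact List.mem_singleton.2 rfl)), if_pos rfl]
      have e0 : (lits (List.ofFn f)).map Tm.lit = List.ofFn f := map_lits (by
        intro t ht
        rw [List.mem_ofFn] at ht
        obtain ⟨j, rfl⟩ := ht
        exact h j)
      have e1 : sgn b (zl b (List.ofFn f)) = lits (List.ofFn f) := by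
        cases b
        · rw [zl_false, sgn_false, map_negl_negl]
        · rfl
      rw [e1, e0, Tm.mk_ofFn]
    · rw [T_node eV eZ h, U_node]
      have e2 : (List.ofFn fun i => U σ (T eV eZ (f i) (!b)) (!b)).flatten = List.ofFn f := by
        have e3 : (fun i => U σ (T eV eZ (f i) (!b)) (!b)) = fun i => [f i] := by
          funext i
          refine ih i (!b) fun l hl => h2 l ?_
          rw [zs_node h, List.mem_flatten]
          exact ⟨zs (f i) (!b), List.mem_ofFn.2 ⟨i, rfl⟩, hl⟩
        rw [e3]
        have e4 : (List.ofFn fun i => [f i]) = (List.ofFn f).map fun t => [t] := by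
          rw [List.map_ofFn]; rfl
        rw [e4, ← List.flatMap_def]
        exact List.flatMap_singleton' _
      rw [e2, Tm.mk_ofFn]

/-- The new formula under the substitution. -/
theorem three_subst (eV : ℕ → ℕ) (eZ : List Lit → ℕ) (F : Fml) (E : List (List Lit))
    (σ : ℕ → ℕ ⊕ List Lit) {m : ℕ} (h1 : ∀ v, σ (eV v) = Sum.inl v)
    (h2 : ∀ l ∈ allZ E F, σ (eZ l) = Sum.inr l) (hm : ∀ l ∈ allZ E F, l.length ≤ m)
    (hE : ∀ C ∈ F, ∀ t ∈ C, ∀ l ∈ zs t true, l ∈ E) :
    ∀ C ∈ three eV eZ F E, (∃ C₀ ∈ F, C₀ ⊆ UL σ C) ∨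
      (∃ l : List Lit, l.length ≤ m ∧ Tm.mk (l.map Tm.lit) ∈ UL σ C ∧
        ∀ x ∈ l, Tm.lit (negl x) ∈ UL σ C) ∨
      (∃ x : Lit, Tm.lit x ∈ UL σ C ∧ Tm.lit (negl x) ∈ UL σ C) := by
  have htail : ∀ x l, x :: l ∈ allZ E F → l ∈ allZ E F := by
    intro x l h
    obtain ⟨l₀, hl₀, h⟩ := List.mem_flatMap.1 h
    refine List.mem_flatMap.2 ⟨l₀, hl₀, ?_⟩
    rw [List.mem_tails] at h ⊢
    exact (List.suffix_cons x l).trans h
  have ut : ∀ l ∈ allZ E F, U σ (Tm.lit (eZ l, true)) true = [Tm.mk (l.map Tm.lit)] := by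
    intro l hl
    rw [U_lit, Ul_inr σ (h2 l hl), if_pos rfl, sgn_true]
  have uf : ∀ l ∈ allZ E F, U σ (Tm.lit (eZ l, false)) true = (l.map negl).map Tm.lit := by
    intro l hl
    rw [U_lit, Ul_inr σ (h2 l hl), if_neg (by simp), sgn_false]
  have uv : ∀ x : Lit, U σ (Tm.lit (ren eV x)) true = [Tm.lit x] := by
    intro x
    rw [U_lit]
    exact Ul_inl σ (h1 x.1) x.2 true
  have uv' : ∀ x : Lit, U σ (Tm.lit (negl (ren eV x))) true = [Tm.lit (negl x)] := by
    intro x
    rw [← ren_negl]
    exact uv (negl x)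
  intro C hC
  rw [three, List.mem_append] at hC
  rcases hC with hC | hC
  · rw [List.mem_map] at hC
    obtain ⟨C₀, hC₀, rfl⟩ := hC
    left
    refine ⟨C₀, hC₀, ?_⟩
    intro t ht
    rw [hline, UL_cons, uf _ (self_mem_allZ (List.mem_append_right _ (List.mem_map_of_mem hC₀))),
      nl, map_negl_negl]
    cases t with
    | lit x =>
      exact List.mem_append_left _ (List.mem_map_of_mem (mem_lits.2 ht))
    | node n f =>
      refine List.mem_append_right _ ?_
      refine mem_UL σ (mem_TL eV eZ (mem_nonlits.2 ⟨ht, rfl⟩)) ?_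
      rw [U_T eV eZ σ h1 _ true fun l hl => h2 l
        (self_mem_allZ (List.mem_append_left _ (hE C₀ hC₀ _ ht l hl)))]
      exact List.mem_singleton.2 rfl
  · obtain ⟨l, hl, hC⟩ := List.mem_flatMap.1 hC
    right
    cases l with
    | nil =>
      left
      simp only [dfn, List.mem_singleton] at hC
      subst hC
      refine ⟨[], by simp, ?_, by simp⟩
      rw [UL_single, ut _ hl]
      exact List.mem_singleton.2 rfl
    | cons x l =>
      have hl' := htail x l hl
      simp only [dfn, List.mem_cons, List.not_mem_nil, or_false] at hC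
      rcases hC with rfl | rfl | rfl
      · left
        refine ⟨x :: l, hm _ hl, ?_, ?_⟩
        · rw [UL_cons, ut _ hl]
          exact List.mem_append_left _ (List.mem_singleton.2 rfl)
        · intro y hy
          rw [UL_cons, UL_cons, UL_single, uv', uf _ hl']
          rw [List.mem_cons] at hy
          refine List.mem_append_right _ ?_
          rcases hy with rfl | hy
          · exact List.mem_append_left _ (List.mem_singleton.2 rfl)
          · exact List.mem_append_right _ (List.mem_map_of_mem (List.mem_map_of_mem hy))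
      · right
        refine ⟨x, ?_, ?_⟩
        · rw [UL_cons, UL_single, uv]
          exact List.mem_append_right _ (List.mem_singleton.2 rfl)
        · rw [UL_cons, uf _ hl]
          exact List.mem_append_left _
            (List.mem_map_of_mem (List.mem_map_of_mem List.mem_cons_self))
      · left
        refine ⟨l, hm _ hl', ?_, ?_⟩
        · rw [UL_cons, UL_single, ut _ hl']
          exact List.mem_append_right _ (List.mem_singleton.2 rfl)
        · intro y hy
          rw [UL_cons, uf _ hl]
          exact List.mem_append_left _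
            (List.mem_map_of_mem (List.mem_map_of_mem (List.mem_cons_of_mem _ hy)))

end Pool.Agent.H75.DH
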