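import Mathlib
import Pool.Agent.H75.DH.Three
import Pool.Agent.H75.DH.Sound
import Pool.Agent.H75.DH.Grow

set_option autoImplicit false

/-!
Depth hierarchy: the transfer theorem and the main steps.
-/

namespace Pool.Agent.H75.DH

theorem has_nil {π : List Line} (h : Has π []) : [] ∈ π := by
  obtain ⟨M, hM, hMs⟩ := h
  have : M = [] := List.subset_nil.1 hMs
  rwa [this] at hM

/-- variables for variables -/
def eV (v : ℕ) : ℕ := 2 * v

/-- variables for lists of literals -/
def eZ (l : List Lit) : ℕ := 2 * Encodable.encode l + 1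

/-- decoding -/
def sg (Z : List (List Lit)) (w : ℕ) : ℕ ⊕ List Lit :=
  if w % 2 = 0 then Sum.inl (w / 2) else
    match (Encodable.decode (w / 2) : Option (List Lit)) with
    | some l => if l ∈ Z then Sum.inr l else Sum.inl 0
    | none => Sum.inl 0

theorem sg_eV (Z : List (List Lit)) (v : ℕ) : sg Z (eV v) = Sum.inl v := by
  have h1 : eV v % 2 = 0 := by unfold eV; omega
  have h2 : eV v / 2 = v := by unfold eV; omega
  rw [sg, if_pos h1, h2]

theorem sg_eZ {Z : List (List Lit)} {l : List Lit} (hl : l ∈ Z) : sg Z (eZ l) = Sum.inr l := by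
  have h1 : ¬ eZ l % 2 = 0 := by unfold eZ; omega
  have h2 : eZ l / 2 = Encodable.encode l := by unfold eZ; omega
  rw [sg, if_neg h1, h2, Encodable.encodek]
  exact if_pos hl

theorem mem_of_sg {Z : List (List Lit)} {w : ℕ} {l : List Lit} (h : sg Z w = Sum.inr l) :
    l ∈ Z := by
  unfold sg at h
  split at h
  · cases h
  · split at h
    · rename_i l' _
      split at h
      · rename_i hl'
        cases h
        exact hl'
      · cases h
    · cases h

/-- all bottom gates -/
def gates (π : List Line) : List (List Lit) := π.flatMap fun L => L.flatMap fun t => zs t true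

theorem csize_gates_line (L : Line) : csize (L.flatMap fun t => zs t true) ≤ lsize L := by
  induction L with
  | nil => exact le_rfl
  | cons t L ih =>
    rw [List.flatMap_cons, csize_append, lsize_cons]
    have := csize_zs t true
    omega

theorem csize_gates (π : List Line) : csize (gates π) ≤ psize π := by
  unfold gates
  induction π with
  | nil => exact le_rfl
  | cons L π ih =>
    rw [List.flatMap_cons, csize_append, psize_cons]
    have := csize_gates_line L
    omega

theorem mem_gates {π : List Line} {M : Line} (hM : M ∈ π) {t : Tm} (ht : t ∈ M) {l : List Lit}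
    (hl : l ∈ zs t true) : l ∈ gates π :=
  List.mem_flatMap.2 ⟨M, hM, List.mem_flatMap.2 ⟨t, ht, hl⟩⟩

/-- The new formula for the formula `F` with the depth `e + 1` refutation `π`. -/
def new (F : Fml) (π : List Line) : Fml := three eV eZ F (gates π ++ gates F)

/-- The transfer theorem: the size of the new formula. -/
theorem psize_new (F : Fml) (π : List Line) :
    psize (new F π) ≤ 24 * (psize π + psize F) := by
  have h1 := psize_three eV eZ F (gates π ++ gates F)
  have h2 := csize_gates π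
  have h3 := csize_gates F
  rw [csize_append] at h1
  rw [new]
  omega

/-- The transfer theorem: the new formula is easy for depth `e`. -/
theorem easy_new {F : Fml} {e : ℕ} (he : 1 ≤ e) {π : List Line} (h : Refutes F (e + 1) π) :
    ∃ ρ, Refutes (new F π) e ρ ∧ psize ρ ≤ 63 * (psize π + psize F) ^ 4 := by
  set N := psize π + psize F with hN
  set E := gates π ++ gates F with hE
  have hEs : csize E ≤ N := by
    have h2 := csize_gates π
    have h3 := csize_gates F
    rw [hE, csize_append]
    omega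
  have hN1 : 1 ≤ N := by
    have := lsize_lt_psize h.2
    omega
  obtain ⟨π₀, g1, g2, g4⟩ := three_derives eV eZ F E he
  set F' : Fml := F.map (TL eV eZ) ++
    (E.map (ext1 eV eZ) ++ E.flatMap fun l => l.map (ext2 eV eZ l)) with hF'
  obtain ⟨π', k1, k2, k3⟩ := trans eV eZ (F := F) (F' := F') (E := E) he
    (fun C hC => List.mem_append_left _ (List.mem_map_of_mem hC))
    (fun l hl => List.mem_append_right _ (List.mem_append_left _
      (List.mem_map_of_mem (f := ext1 eV eZ) hl)))
    (fun l hl x hx => List.mem_append_right _ (List.mem_append_right _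
      (List.mem_flatMap.2 ⟨l, hl, List.mem_map_of_mem (f := ext2 eV eZ l) hx⟩)))
    (S := psize π) π h.1 (fun M hM => lsize_lt_psize hM) (fun M hM t ht l hl =>
      List.mem_append_left _ (mem_gates hM ht hl))
  obtain ⟨ρ, r1, r2, r3⟩ := lift (F' := F') he g1 (by
    intro C hC
    rw [hF', List.mem_append, List.mem_append] at hC
    rcases hC with hC | hC | hC
    · rw [List.mem_map] at hC
      obtain ⟨C₀, hC₀, rfl⟩ := hC
      exact Or.inr (hline_lift eV eZ (fun l hl => (g2 l hl).1) hC₀)
    · rw [List.mem_map] at hC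
      obtain ⟨l, hl, rfl⟩ := hC
      exact Or.inl (g2 l (List.mem_append_left _ hl)).1
    · obtain ⟨l, hl, hC⟩ := List.mem_flatMap.1 hC
      rw [List.mem_map] at hC
      obtain ⟨x, hx, rfl⟩ := hC
      exact Or.inl ((g2 l (List.mem_append_left _ hl)).2 x hx)) π' k1
  refine ⟨ρ ++ π₀, ⟨r1, has_nil ((k2 [] h.2).trans r2)⟩, ?_⟩
  rw [psize_append]
  have a1 : π.length ≤ N := (length_le_psize π).trans (by omega)
  have a2 : psize π ^ 3 ≤ N ^ 3 := Nat.pow_le_pow_left (by omega) 3
  have a3 : π.length * (9 * psize π ^ 3) ≤ N * (9 * N ^ 3) :=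
    Nat.mul_le_mul a1 (Nat.mul_le_mul_left 9 a2)
  have a4 : (csize E + psize F) ^ 2 ≤ (2 * N) ^ 2 := Nat.pow_le_pow_left (by omega) 2
  have a5 : (2 * N) ^ 2 = 4 * N ^ 2 := by ring
  have a6 : N * (9 * N ^ 3) = 9 * N ^ 4 := by ring
  have a8 : N ^ 2 ≤ N ^ 4 := Nat.pow_le_pow_right hN1 (by norm_num)
  omega

/-- The transfer theorem: a depth `d` refutation of the new formula gives a depth `d + 1`
refutation of `F`. -/
theorem hard_new {F : Fml} {π : List Line} {d : ℕ} {ρ : List Line} (hρ : Refutes (new F π) d ρ) :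
    ∃ ρ', Refutes F (d + 1) ρ' ∧
      psize ρ' ≤ 5 * (2 * (psize π + psize F) + 1) ^ 2 * psize ρ ^ 3 := by
  set N := psize π + psize F with hN
  set E := gates π ++ gates F with hE
  have hEs : csize E ≤ N := by
    have h2 := csize_gates π
    have h3 := csize_gates F
    rw [hE, csize_append]
    omega
  have hlen : ∀ l ∈ allZ E F, l.length ≤ 2 * N := by
    intro l hl
    have := length_le_of_allZ hl
    omega
  obtain ⟨ρ', k1, k2, k3⟩ := subst (sg (allZ E F)) (F := F) (m := 2 * N)
    (fun w l hw => hlen l (mem_of_sg hw))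
    (three_subst eV eZ F E (sg (allZ E F)) (sg_eV _) (fun l hl => sg_eZ hl) hlen
      (fun C hC t ht l hl => List.mem_append_right _ (mem_gates hC ht hl)))
    (S := psize ρ) ρ hρ.1 (fun M hM => lsize_lt_psize hM)
  refine ⟨ρ', ⟨k1, has_nil (k2 [] hρ.2)⟩, k3.trans ?_⟩
  have a1 := length_le_psize ρ
  calc ρ.length * (5 * ((2 * N + 1) * psize ρ) ^ 2) ≤
        psize ρ * (5 * ((2 * N + 1) * psize ρ) ^ 2) := Nat.mul_le_mul_right _ a1
    _ = 5 * (2 * N + 1) ^ 2 * psize ρ ^ 3 := by ring

/-- The main step. -/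
theorem step {P Q : Fml → Prop} (hPQ : ∀ F π, P F → Q (new F π)) {d e : ℕ} (he : 1 ≤ e)
    (h : Stronger P (d + 1) (e + 1)) : Stronger Q d e := by
  obtain ⟨F, c, ε, hε, h1, h2, n₀, h3⟩ := h
  choose π hπ hπs using h2
  have ht := fun n => easy_new he (hπ n)
  choose ρ hρ hρs using ht
  obtain ⟨c₁, hc₁, hb1⟩ := poly_bound 63 4 c
  obtain ⟨c₂, _, hb2⟩ := poly_bound 20 2 c
  have hNle : ∀ n, psize (π n) + psize (F n) ≤ 2 * (n ^ c + c) := by
    intro n
    have a1 := (h1 n).2.2
    have a2 := hπs n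
    omega
  refine ⟨fun n => new (F n) (π n), c₁, ε / 2, by positivity, ?_, ?_, ?_⟩
  · intro n
    refine ⟨hPQ _ _ (h1 n).1, unsat_of_refutes (hρ n), ?_⟩
    refine le_trans ?_ (hb1 n)
    have a1 := psize_new (F n) (π n)
    beta_reduce
    have a2 := hNle n
    have a3 : 2 * (n ^ c + c) + 1 ≤ (2 * (n ^ c + c) + 1) ^ 4 := Nat.le_self_pow (by norm_num) _
    omega
  · intro n
    refine ⟨ρ n, hρ n, ?_⟩
    refine le_trans ?_ (hb1 n)
    refine (hρs n).trans (Nat.mul_le_mul_left 63 (Nat.pow_le_pow_left ?_ 4))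
    have a2 := hNle n
    omega
  · obtain ⟨n₁, hn₁⟩ := growth c₂ hε
    refine ⟨max n₀ n₁, fun n hn τ hτ => ?_⟩
    obtain ⟨ρ', hρ', hs⟩ := hard_new hτ
    refine hn₁ n (le_trans (le_max_right _ _) hn) (psize τ) ?_
    refine (h3 n (le_trans (le_max_left _ _) hn) ρ' hρ').trans ?_
    have a0 : (2 * (psize (π n) + psize (F n)) + 1) ^ 2 ≤ (2 * (2 * (n ^ c + c)) + 2) ^ 2 :=
      Nat.pow_le_pow_left (by have := hNle n; omega) 2
    have a1 : 5 * (2 * (psize (π n) + psize (F n)) + 1) ^ 2 ≤ n ^ c₂ + c₂ := by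
      refine le_trans ?_ (hb2 n)
      have e : 5 * (2 * (2 * (n ^ c + c)) + 2) ^ 2 = 20 * (2 * (n ^ c + c) + 1) ^ 2 := by ring
      rw [← e]
      exact Nat.mul_le_mul_left 5 a0
    have a2 : psize ρ' ≤ (n ^ c₂ + c₂) * psize τ ^ 3 :=
      hs.trans (Nat.mul_le_mul_right _ a1)
    exact_mod_cast a2

theorem Stronger.mono {P Q : Fml → Prop} (hPQ : ∀ F, P F → Q F) {d e : ℕ}
    (h : Stronger P d e) : Stronger Q d e := by
  obtain ⟨F, c, ε, hε, h1, h2⟩ := h
  exact ⟨F, c, ε, hε, fun n => ⟨hPQ _ (h1 n).1, (h1 n).2⟩, h2⟩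

/-- From depth `k + 1` to depth `k`. -/
theorem step_depth {k d e : ℕ} (hk : 2 ≤ k) (he : 1 ≤ e)
    (h : Stronger (DepthLE (k + 1)) (d + 1) (e + 1)) : Stronger (DepthLE k) d e :=
  step (fun _ _ hF => depth_three eV eZ _ hk hF) he h

/-- From CNF formulas to 3-CNF formulas. -/
theorem step_three {d e : ℕ} (he : 1 ≤ e) (h : Stronger (DepthLE 2) (d + 1) (e + 1)) :
    Stronger ThreeCnf d e :=
  step (fun _ _ hF => three_three eV eZ _ hF) he h

/-- From depth `j + 2` to depth `2`. -/
theorem down (j : ℕ) : ∀ {d e : ℕ}, 1 ≤ e → Stronger (DepthLE (j + 2)) (d + j) (e + j) →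
    Stronger (DepthLE 2) d e := by
  induction j with
  | zero => intro d e _ h; exact h
  | succ j ih =>
    intro d e he h
    exact ih he (step_depth (k := j + 2) (d := d + j) (e := e + j) (by omega) (by omega) h)

/-- The levels below. -/
theorem descend (k : ℕ) : ∀ {d e : ℕ}, 1 ≤ e → Stronger (DepthLE 2) (d + k) (e + k) →
    Stronger (DepthLE 2) d e := by
  induction k with
  | zero => intro d e _ h; exact h
  | succ k ih =>
    intro d e he h
    exact ih he ((step_three (d := d + k) (e := e + k) (by omega) h).mono fun _ hF => hF.1)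

end Pool.Agent.H75.DH
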